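import Pool.Agent.T9h55.KT.Gold
import Pool.Agent.T9h55.KT.Ex
import Pool.Agent.T9h55.RM.LawB

/-! Sums of two moved primes: the law; existence of the parameters (helper55). -/

set_option autoImplicit false

namespace Pool.Agent.T9h55.KT

open Finset Filter Topology MeasureTheory ProbabilityTheory

variable {Ω : Type*} [MeasurableSpace Ω] {μ : Measure Ω}

lemma exp_small' {a : ℝ} (ha : 0 < a) (E : ℕ) : ∀ᶠ n : ℕ in atTop,
    Real.exp (-(a * (n / Real.log n ^ E))) ≤ 1 / (n : ℝ) ^ 2 := by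
  filter_upwards [pow_log_le (2 / a) (E + 1), eventually_ge_atTop 2] with n h2 h3
  have hn : (2 : ℝ) ≤ n := by exact_mod_cast h3
  have hL : 0 < Real.log n := Real.log_pos (by linarith)
  have h4 : 2 * Real.log n ≤ a * (n / Real.log n ^ E) := by
    rw [mul_div_assoc', le_div_iff₀ (by positivity)]
    calc 2 * Real.log n * Real.log n ^ E = a * (2 / a * Real.log n ^ (E + 1)) := by
          rw [pow_succ]
          field_simp
      _ ≤ a * n := mul_le_mul_of_nonneg_left h2 ha.le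
  calc Real.exp (-(a * (n / Real.log n ^ E))) ≤ Real.exp (-(2 * Real.log n)) := Real.exp_le_exp.2 (by linarith)
    _ = 1 / (n : ℝ) ^ 2 := by
      rw [Real.exp_neg, show 2 * Real.log n = Real.log ((n : ℝ) ^ 2) by rw [Real.log_pow]; push_cast; ring,
        Real.exp_log (by positivity), one_div]

theorem gold_law [IsProbabilityMeasure μ] (A K B : ℕ) (hK : 1 ≤ K) (e : ℕ → ℝ) (he : Antitone e) (he0 : ∀ n, 0 < e n)
    (he1 : ∀ n, e n ≤ 1) (heB : ∀ᶠ n : ℕ in atTop, 1 / Real.log n ^ B ≤ e n) (y H : ℕ → ℕ) (ξ : ℕ → Ω → ℕ) (hy : Monotone y)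
    (hyt : Tendsto y atTop atTop)
    (hM : ∀ᶠ n : ℕ in atTop, (((y (Nat.log 2 n)).factorial : ℕ) : ℝ) ≤ Real.log n ^ A)
    (hH : ∀ᶠ n : ℕ in atTop, (n : ℝ) / (K * Real.log n ^ A) ≤ ((y (Nat.log 2 n)).factorial : ℝ) * H n ∧
      ((y (Nat.log 2 n)).factorial : ℝ) * H n ≤ (K : ℝ) * n / Real.log n ^ A)
    (hm : ∀ j, Measurable (ξ j)) (hi : iIndepFun ξ μ)
    (hu : ∀ j, 1 ≤ j → ∀ h < H j, e j / (H j : ℝ) ≤ μ.real {ω | ξ j ω = h}) :
    ∀ᵐ ω ∂μ, ∀ᶠ n : ℕ in atTop, Even n →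
      e n ^ 2 / (10 ^ 11 * 4 ^ A * (K : ℝ) ^ 4) * (n / Real.log n ^ 2) ≤ #(reps (fun p => y (Nat.log 2 p)) ξ n ω) := by
  classical
  have hg := gold (μ := μ) A K hK e he he0 he1 y H ξ hy hyt hM hH hm hi hu
  have hK1 : (1 : ℝ) ≤ K := by exact_mod_cast hK
  set a : ℝ := 1 / (16000 * (1600 * 2 ^ A * (K : ℝ) ^ 2) ^ 2) with ha
  have ha0 : 0 < a := by positivity
  have hlog : Tendsto (fun k : ℕ => Real.log (k : ℝ)) atTop atTop := Real.tendsto_log_atTop.comp tendsto_natCast_atTop_atTop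
  have hbc := Pool.Agent.T9h55.RM.bc (μ := μ) (B := 2)
    (A := fun n => {ω | Even n ∧ (#(reps (fun p => y (Nat.log 2 p)) ξ n ω) : ℝ) ≤
        e n ^ 2 / (4000 * (1600 * 2 ^ A * (K : ℝ) ^ 2) ^ 2) * (n / Real.log n ^ 2)}) (by
      filter_upwards [hg, exp_small' ha0 (2 * B + 2), hlog.eventually_ge_atTop 1, heB] with n h1 h2 h3 h5
      by_cases hn : Even n
      · simp only [hn, true_and]
        refine (h1 hn).trans ?_
        apply mul_le_mul_of_nonneg_left _ (by norm_num)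
        refine le_trans (Real.exp_le_exp.2 ?_) h2
        have hL0 : 0 < Real.log (n : ℝ) := by linarith
        have h6 : (1 / Real.log n ^ B) ^ 2 ≤ e n ^ 2 := pow_le_pow_left₀ (by positivity) h5 2
        have h7 : a * ((n : ℝ) / Real.log n ^ (2 * B + 2)) = a * ((1 / Real.log n ^ B) ^ 2 * (n / Real.log n ^ 2)) := by
          field_simp
          ring
        have h8 : e n ^ 2 / (16000 * (1600 * 2 ^ A * (K : ℝ) ^ 2) ^ 2) * (n / Real.log n ^ 2) =
            a * (e n ^ 2 * (n / Real.log n ^ 2)) := by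
          rw [ha]
          ring
        have h9 : (1 / Real.log n ^ B) ^ 2 * ((n : ℝ) / Real.log n ^ 2) ≤ e n ^ 2 * (n / Real.log n ^ 2) :=
          mul_le_mul_of_nonneg_right h6 (by positivity)
        have h10 := mul_le_mul_of_nonneg_left h9 ha0.le
        rw [h7, h8]
        linarith
      · simp only [hn, false_and, Set.ofPred_false, measureReal_empty]
        positivity)
  filter_upwards [hbc] with ω hω
  filter_upwards [hω, eventually_ge_atTop 1] with n h1 hn hev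
  simp only [Set.mem_ofPred_eq, not_and, not_le] at h1
  have h2 := h1 hev
  refine le_trans ?_ h2.le
  apply mul_le_mul_of_nonneg_right _ (by positivity)
  apply div_le_div_of_nonneg_left (by positivity) (by positivity)
  have e1 : (2 : ℝ) ^ A * 2 ^ A = 4 ^ A := by
    rw [← mul_pow]
    norm_num
  have e2 : 4000 * (1600 * 2 ^ A * (K : ℝ) ^ 2) ^ 2 = 10240000000 * (2 ^ A * 2 ^ A) * K ^ 4 := by ring
  rw [e2, e1]
  have h3 : (0 : ℝ) ≤ 4 ^ A * K ^ 4 := by positivity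
  nlinarith

open Classical in
theorem exists_H (A : ℕ) (z : ℕ → ℕ) (hz1 : ∀ᶠ k : ℕ in atTop, (((z k).factorial : ℕ) : ℝ) ≤ Real.log k) :
    ∃ H : ℕ → ℕ, (∀ᶠ k : ℕ in atTop, (k : ℝ) / Real.log k ^ A ≤ ((z k).factorial : ℝ) * H k ∧
      ((z k).factorial : ℝ) * H k ≤ 2 * ((k : ℝ) / Real.log k ^ A)) ∧ ∀ k, 1 ≤ H k := by
  have hlog : Tendsto (fun k : ℕ => Real.log (k : ℝ)) atTop atTop := Real.tendsto_log_atTop.comp tendsto_natCast_atTop_atTop
  refine ⟨fun k => max 1 ⌈(k : ℝ) / (Real.log k ^ A * (z k).factorial)⌉₊, ?_, fun k => le_max_left _ _⟩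
  have hsmall : ∀ᶠ k : ℕ in atTop, Real.log k ^ (A + 1) ≤ (k : ℝ) := by
    filter_upwards [pow_log_le 1 (A + 1)] with k hk
    linarith
  filter_upwards [hz1, hsmall, hlog.eventually_ge_atTop 1, eventually_ge_atTop 1] with k h1 h2 h3 h4
  set L : ℝ := Real.log k with hL
  set M : ℝ := ((z k).factorial : ℝ) with hM
  have hM1 : 1 ≤ M := by
    rw [hM]
    exact_mod_cast Nat.factorial_pos _
  have hL0 : 0 < L := by linarith
  have hM0 : 0 < M := by linarith
  have hk0 : (0 : ℝ) < k := by exact_mod_cast h4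
  have hMk : M ≤ (k : ℝ) / L ^ A := by
    rw [le_div_iff₀ (by positivity)]
    calc M * L ^ A ≤ L * L ^ A := mul_le_mul_of_nonneg_right h1 (by positivity)
      _ = L ^ (A + 1) := by ring
      _ ≤ _ := h2
  set Y : ℝ := (k : ℝ) / (L ^ A * M) with hY
  have hYM : M * Y = (k : ℝ) / L ^ A := by
    rw [hY]
    field_simp
  have hY1 : 1 ≤ Y := by
    rw [hY, one_le_div (by positivity)]
    rw [le_div_iff₀ (by positivity)] at hMk
    linarith
  have hceil : 1 ≤ ⌈Y⌉₊ := Nat.one_le_ceil_iff.2 (by linarith)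
  rw [max_eq_right hceil]
  constructor
  · rw [← hYM]
    exact mul_le_mul_of_nonneg_left (Nat.le_ceil Y) hM0.le
  · rw [← hYM]
    have h5 : (⌈Y⌉₊ : ℝ) ≤ 2 * Y := by
      have := Nat.ceil_lt_add_one (show 0 ≤ Y by linarith)
      linarith
    calc M * (⌈Y⌉₊ : ℝ) ≤ M * (2 * Y) := mul_le_mul_of_nonneg_left h5 hM0.le
      _ = 2 * (M * Y) := by ring

theorem exists_adm2 (A : ℕ) : ∃ y H : ℕ → ℕ, Monotone y ∧ Tendsto y atTop atTop ∧
    (∀ᶠ k : ℕ in atTop, (((y (Nat.log 2 k)).factorial : ℕ) : ℝ) ≤ Real.log k) ∧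
    (∀ᶠ k : ℕ in atTop, (k : ℝ) / Real.log k ^ A ≤ ((y (Nat.log 2 k)).factorial : ℝ) * H k ∧
      ((y (Nat.log 2 k)).factorial : ℝ) * H k ≤ 2 * ((k : ℝ) / Real.log k ^ A)) ∧ ∀ k, 1 ≤ H k := by
  obtain ⟨z, -, hz1, hz2, hz3, -, -⟩ := exists_adm A
  have h1 : ∀ᶠ k : ℕ in atTop, (((z (2 ^ Nat.log 2 k)).factorial : ℕ) : ℝ) ≤ Real.log k := by
    filter_upwards [hz3, eventually_ge_atTop 1] with k h2 h3
    refine le_trans ?_ h2
    exact_mod_cast Nat.factorial_le (hz1 (Nat.pow_log_le_self 2 (by omega)))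
  obtain ⟨H, hH1, hH2⟩ := exists_H A (fun k => z (2 ^ Nat.log 2 k)) h1
  refine ⟨fun j => z (2 ^ j), H, fun i j hij => hz1 (Nat.pow_le_pow_right (by norm_num) hij), ?_, h1, hH1, hH2⟩
  exact hz2.comp (tendsto_pow_atTop_atTop_of_one_lt (by norm_num : (1 : ℕ) < 2))

end Pool.Agent.T9h55.KT
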