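import Pool.Agent.N75.DC.SW

/-! Primes in progressions in intervals (helper55). -/

set_option autoImplicit false

namespace Pool.Agent.T9h55.KT

open Finset Filter Topology
open Pool.Agent.N718.DC (lam pos S_SW)

theorem primes_ap (A D : ℕ) : ∀ᶠ X : ℕ in atTop, ∀ M : ℕ, 1 ≤ M → (M : ℝ) ≤ Real.log X ^ A → ∀ a : ℕ, Nat.Coprime a M →
    ∀ u w : ℕ, u ≤ w → w ≤ X → (X : ℝ) / Real.log X ^ D ≤ (w : ℝ) - u →
    ((w : ℝ) - u) / (2 * M * Real.log X) ≤ (#((Ioc u w).filter fun p => p.Prime ∧ p ≡ a [MOD M]) : ℝ) := by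
  classical
  obtain ⟨X₀, h0⟩ := Pool.Agent.N75.DC.sw_ A (A + D + 1)
  have hlog : Tendsto (fun k : ℕ => Real.log (k : ℝ)) atTop atTop := Real.tendsto_log_atTop.comp tendsto_natCast_atTop_atTop
  filter_upwards [hlog.eventually_ge_atTop 2, eventually_ge_atTop X₀, eventually_ge_atTop 1] with X hL hX hX1
  intro M hM1 hM a ha u w huw hwX hlen
  set L : ℝ := Real.log X with hLd
  have hL0 : 0 < L := by linarith
  have hX0 : (0 : ℝ) < X := by exact_mod_cast hX1
  have hM0 : (0 : ℝ) < M := by exact_mod_cast hM1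
  have key := h0 X hX M hM1 hM (a : ℤ) (Nat.isCoprime_iff_coprime.2 ha) (u : ℤ) (w : ℤ) (by omega) (by omega) (by omega)
  -- the main term
  have hpos : ∑ n ∈ Ioc (u : ℤ) (w : ℤ), pos n = (w : ℝ) - u := by
    rw [Finset.sum_congr rfl (g := fun _ => (1 : ℝ))]
    · rw [Finset.sum_const, nsmul_eq_mul, mul_one, Int.card_Ioc]
      have : ((((w : ℤ) - (u : ℤ)).toNat : ℕ) : ℝ) = (w : ℝ) - u := by
        have h1 : ((w : ℤ) - (u : ℤ)).toNat = w - u := by omega
        rw [h1, Nat.cast_sub huw]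
      exact this
    · intro n hn
      rw [mem_Ioc] at hn
      unfold pos
      rw [if_pos (by omega)]
  rw [hpos] at key
  have hφ0 : (0 : ℝ) < Nat.totient M := by exact_mod_cast Nat.totient_pos.2 hM1
  have hφM : (Nat.totient M : ℝ) ≤ M := by exact_mod_cast Nat.totient_le M
  have hwu : (0 : ℝ) ≤ (w : ℝ) - u := by
    have : (u : ℝ) ≤ w := by exact_mod_cast huw
    linarith
  have h1 : ((w : ℝ) - u) / M ≤ 1 / (Nat.totient M : ℝ) * ((w : ℝ) - u) := by
    rw [one_div_mul_eq_div]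
    exact div_le_div_of_nonneg_left hwu hφ0 hφM
  have h2 : (X : ℝ) / L ^ (A + D + 1) ≤ ((w : ℝ) - u) / (2 * M) := by
    rw [div_le_iff₀ (by positivity)] at hlen
    rw [div_le_div_iff₀ (by positivity) (by positivity)]
    have h3 : 2 * (M : ℝ) ≤ L * L ^ A := mul_le_mul hL hM hM0.le hL0.le
    calc (X : ℝ) * (2 * M) ≤ (((w : ℝ) - u) * L ^ D) * (L * L ^ A) := mul_le_mul hlen h3 (by positivity) (by positivity)
      _ = ((w : ℝ) - u) * L ^ (A + D + 1) := by ring
  have h4 : ((w : ℝ) - u) / (2 * M) ≤ ∑ n ∈ (Ioc (u : ℤ) (w : ℤ)).filter (fun n => (M : ℤ) ∣ n - a), lam n := by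
    have h5 := (abs_le.1 key).1
    have h6 : ((w : ℝ) - u) / M = ((w : ℝ) - u) / (2 * M) + ((w : ℝ) - u) / (2 * M) := by
      field_simp
      ring
    linarith
  -- comparison with the number of primes
  have h7 : ∑ n ∈ (Ioc (u : ℤ) (w : ℤ)).filter (fun n => (M : ℤ) ∣ n - a), lam n ≤
      L * (#((Ioc u w).filter fun p => p.Prime ∧ p ≡ a [MOD M]) : ℝ) := by
    have h8 : ∑ n ∈ (Ioc (u : ℤ) (w : ℤ)).filter (fun n => (M : ℤ) ∣ n - a), lam n =
        ∑ n ∈ ((Ioc (u : ℤ) (w : ℤ)).filter (fun n => (M : ℤ) ∣ n - a)).filter (fun n => n.natAbs.Prime), lam n := by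
      symm
      apply Finset.sum_filter_of_ne
      intro n _ hne
      by_contra hp
      apply hne
      unfold lam
      rw [if_neg (fun h => hp h.2)]
    rw [h8]
    have h9 : ∀ n ∈ ((Ioc (u : ℤ) (w : ℤ)).filter (fun n => (M : ℤ) ∣ n - a)).filter (fun n => n.natAbs.Prime), lam n ≤ L := by
      intro n hn
      rw [mem_filter, mem_filter, mem_Ioc] at hn
      obtain ⟨⟨⟨h10, h11⟩, -⟩, h12⟩ := hn
      unfold lam
      rw [if_pos ⟨by omega, h12⟩]
      apply Real.log_le_log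
      · exact_mod_cast (by omega : 0 < n)
      · exact_mod_cast (by omega : n ≤ (X : ℤ))
    refine (Finset.sum_le_card_nsmul _ _ _ h9).trans (le_of_eq ?_)
    rw [nsmul_eq_mul, mul_comm]
    congr 2
    symm
    apply Finset.card_nbij' (fun p : ℕ => (p : ℤ)) (fun n : ℤ => n.natAbs)
    · intro p hp
      rw [mem_coe, mem_filter, mem_Ioc] at hp
      rw [mem_coe, mem_filter, mem_filter, mem_Ioc]
      beta_reduce
      refine ⟨⟨⟨by omega, by omega⟩, ?_⟩, by simpa using hp.2.1⟩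
      have h10 := (Nat.modEq_iff_dvd.1 hp.2.2.symm)
      exact h10
    · intro n hn
      rw [mem_coe, mem_filter, mem_filter, mem_Ioc] at hn
      rw [mem_coe, mem_filter, mem_Ioc]
      beta_reduce
      obtain ⟨⟨⟨h10, h11⟩, h12⟩, h13⟩ := hn
      refine ⟨⟨by omega, by omega⟩, h13, ?_⟩
      apply Nat.ModEq.symm
      rw [Nat.modEq_iff_dvd]
      rw [Int.natAbs_of_nonneg (by omega)]
      exact h12
    · intro p _
      simp
    · intro n hn
      rw [mem_coe, mem_filter, mem_filter, mem_Ioc] at hn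
      beta_reduce
      omega
  have h8 := h4.trans h7
  rw [div_le_iff₀ (by positivity)]
  rw [div_le_iff₀ (by positivity)] at h8
  linarith

end Pool.Agent.T9h55.KT
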