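import Mathlib

/-! Second moments; independent balls which hit targets (helper55). -/

set_option autoImplicit false

namespace Pool.Agent.T9h55.KT

open Finset MeasureTheory ProbabilityTheory

variable {Ω : Type*} [MeasurableSpace Ω] {μ : Measure Ω}

open Classical in
/-- if the events are pairwise nonpositively correlated, many of them occur -/
lemma second_moment [IsProbabilityMeasure μ] (T : Finset ℕ) (F : ℕ → Set Ω) (hF : ∀ x, MeasurableSet (F x))
    (hneg : ∀ x ∈ T, ∀ x' ∈ T, x ≠ x' → μ.real (F x ∩ F x') ≤ μ.real (F x) * μ.real (F x'))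
    (he : 0 < ∑ x ∈ T, μ.real (F x)) :
    μ.real {ω | (#(T.filter fun x => ω ∈ F x) : ℝ) ≤ (∑ x ∈ T, μ.real (F x)) / 2} ≤ 4 / ∑ x ∈ T, μ.real (F x) := by
  set e : ℝ := ∑ x ∈ T, μ.real (F x) with hedef
  set X : Ω → ℝ := fun ω => ∑ x ∈ T, (F x).indicator (fun _ => (1 : ℝ)) ω with hX
  have hcard : ∀ ω, (#(T.filter fun x => ω ∈ F x) : ℝ) = X ω := by
    intro ω
    rw [hX, Finset.card_filter]
    push_cast
    refine Finset.sum_congr rfl fun x _ => ?_
    rw [Set.indicator_apply]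
  have hint1 : ∀ s : Set Ω, MeasurableSet s → Integrable (s.indicator (fun _ => (1 : ℝ))) μ := fun s hs =>
    (integrable_const 1).indicator hs
  have hival : ∀ s : Set Ω, MeasurableSet s → ∫ ω, s.indicator (fun _ => (1 : ℝ)) ω ∂μ = μ.real s := by
    intro s hs
    rw [integral_indicator_const _ hs]
    simp
  have hXint : Integrable X μ := integrable_finset_sum _ fun x _ => hint1 _ (hF x)
  have hEX : ∫ ω, X ω ∂μ = e := by
    rw [hX, integral_finset_sum _ (fun x _ => hint1 _ (hF x))]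
    exact Finset.sum_congr rfl fun x _ => hival _ (hF x)
  have hX2 : ∀ ω, X ω ^ 2 = ∑ x ∈ T, ∑ x' ∈ T, (F x ∩ F x').indicator (fun _ => (1 : ℝ)) ω := by
    intro ω
    rw [hX, sq, Finset.sum_mul_sum]
    refine Finset.sum_congr rfl fun x _ => Finset.sum_congr rfl fun x' _ => ?_
    simp only [Set.indicator_apply, Set.mem_inter_iff]
    by_cases h1 : ω ∈ F x <;> by_cases h2 : ω ∈ F x' <;> simp [h1, h2]
  have hX2int : Integrable (fun ω => X ω ^ 2) μ := by
    simp only [hX2]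
    exact integrable_finset_sum _ fun x _ => integrable_finset_sum _ fun x' _ => hint1 _ ((hF x).inter (hF x'))
  have hEX2 : ∫ ω, X ω ^ 2 ∂μ ≤ e + e ^ 2 := by
    simp only [hX2]
    rw [integral_finset_sum _ (fun x _ => integrable_finset_sum _ fun x' _ => hint1 _ ((hF x).inter (hF x')))]
    have h1 : ∀ x ∈ T, ∫ ω, ∑ x' ∈ T, (F x ∩ F x').indicator (fun _ => (1 : ℝ)) ω ∂μ ≤ μ.real (F x) + μ.real (F x) * e := by
      intro x hx
      rw [integral_finset_sum _ (fun x' _ => hint1 _ ((hF x).inter (hF x')))]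
      rw [hedef, Finset.mul_sum]
      have h2 : ∀ x' ∈ T, ∫ ω, (F x ∩ F x').indicator (fun _ => (1 : ℝ)) ω ∂μ ≤
          (if x' = x then μ.real (F x) else 0) + μ.real (F x) * μ.real (F x') := by
        intro x' hx'
        rw [hival _ ((hF x).inter (hF x'))]
        split_ifs with h
        · subst h
          rw [Set.inter_self]
          have := mul_nonneg (measureReal_nonneg (μ := μ) (s := F x')) (measureReal_nonneg (μ := μ) (s := F x'))
          linarith
        · rw [zero_add]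
          exact hneg x hx x' hx' (Ne.symm h)
      refine (Finset.sum_le_sum h2).trans (le_of_eq ?_)
      rw [Finset.sum_add_distrib, Finset.sum_ite_eq' T x, if_pos hx]
    refine (Finset.sum_le_sum h1).trans (le_of_eq ?_)
    rw [Finset.sum_add_distrib, ← Finset.sum_mul, ← hedef, sq]
  have hV : ∫ ω, (X ω - e) ^ 2 ∂μ ≤ e := by
    have h1 : ∫ ω, (X ω - e) ^ 2 ∂μ = ∫ ω, X ω ^ 2 ∂μ - 2 * e * ∫ ω, X ω ∂μ + e ^ 2 := by
      have h2 : ∀ ω, (X ω - e) ^ 2 = X ω ^ 2 - 2 * e * X ω + e ^ 2 := fun ω => by ring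
      have h3 : Integrable (fun ω => X ω ^ 2 - 2 * e * X ω) μ := hX2int.sub (hXint.const_mul _)
      have h4 : ∫ ω, (X ω ^ 2 - 2 * e * X ω + e ^ 2) ∂μ = ∫ ω, (X ω ^ 2 - 2 * e * X ω) ∂μ + ∫ _ω, e ^ 2 ∂μ :=
        integral_add h3 (integrable_const _)
      have h5 : ∫ ω, (X ω ^ 2 - 2 * e * X ω) ∂μ = ∫ ω, X ω ^ 2 ∂μ - ∫ ω, 2 * e * X ω ∂μ :=
        integral_sub hX2int (hXint.const_mul _)
      simp only [h2]
      rw [h4, h5, integral_const_mul]
      simp
    rw [h1, hEX]
    nlinarith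
  have hVint : Integrable (fun ω => (X ω - e) ^ 2) μ := by
    have h2 : ∀ ω, (X ω - e) ^ 2 = X ω ^ 2 - 2 * e * X ω + e ^ 2 := fun ω => by ring
    simp only [h2]
    exact (hX2int.sub (hXint.const_mul _)).add (integrable_const _)
  have hM := mul_meas_ge_le_integral_of_nonneg (μ := μ) (f := fun ω => (X ω - e) ^ 2)
    (Filter.Eventually.of_forall fun ω => sq_nonneg _) hVint ((e / 2) ^ 2)
  have hsub : {ω | (#(T.filter fun x => ω ∈ F x) : ℝ) ≤ e / 2} ⊆ {ω | (e / 2) ^ 2 ≤ (X ω - e) ^ 2} := by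
    intro ω hω
    simp only [Set.mem_ofPred_eq] at hω ⊢
    rw [hcard] at hω
    nlinarith
  have h3 : μ.real {ω | (#(T.filter fun x => ω ∈ F x) : ℝ) ≤ e / 2} ≤ μ.real {ω | (e / 2) ^ 2 ≤ (X ω - e) ^ 2} :=
    measureReal_mono hsub (measure_ne_top μ _)
  rw [le_div_iff₀ he]
  have h4 : (e / 2) ^ 2 * μ.real {ω | (#(T.filter fun x => ω ∈ F x) : ℝ) ≤ e / 2} ≤ e :=
    (mul_le_mul_of_nonneg_left h3 (by positivity)).trans (hM.trans hV)
  have h5 : e * (μ.real {ω | (#(T.filter fun x => ω ∈ F x) : ℝ) ≤ e / 2} * e) ≤ e * 4 := by nlinarith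
  exact le_of_mul_le_mul_left h5 he

instance discrete_fun (B : Finset ℕ) : DiscreteMeasurableSpace (B → ℕ) := inferInstance

/-- events which are determined by disjoint groups of independent variables -/
lemma indep_colors [IsProbabilityMeasure μ] {ξ : ℕ → Ω → ℕ} (hm : ∀ j, Measurable (ξ j)) (hi : iIndepFun ξ μ) (S : Finset ℕ)
    (B : ℕ → Finset ℕ) (hB : (S : Set ℕ).PairwiseDisjoint B) (D : ∀ y, Set (B y → ℕ)) :
    μ.real (⋂ y ∈ S, (fun ω (j : B y) => ξ j ω) ⁻¹' D y) = ∏ y ∈ S, μ.real ((fun ω (j : B y) => ξ j ω) ⁻¹' D y) := by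
  classical
  induction S using Finset.induction_on with
  | empty => simp
  | insert y0 S hy0 ih =>
    rw [Finset.set_biInter_insert, Finset.prod_insert hy0]
    have hS : (S : Set ℕ).PairwiseDisjoint B := hB.subset (by simp)
    rw [← ih hS]
    set U : Finset ℕ := S.biUnion B with hU
    have hdis : Disjoint (B y0) U := by
      rw [hU, Finset.disjoint_biUnion_right]
      intro y hy
      exact hB (by simp) (by simp [hy]) (fun h => hy0 (h ▸ hy))
    have hsub : ∀ y ∈ S, B y ⊆ U := fun y hy => Finset.subset_biUnion_of_mem B hy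
    set D' : Set (U → ℕ) := {g | ∀ y, ∀ hy : y ∈ S, (fun j : B y => g ⟨j, hsub y hy j.2⟩) ∈ D y} with hD'
    have e1 : (⋂ y ∈ S, (fun ω (j : B y) => ξ j ω) ⁻¹' D y) = (fun ω (j : U) => ξ j ω) ⁻¹' D' := by
      ext ω
      simp only [Set.mem_iInter, Set.mem_preimage, hD', Set.mem_ofPred_eq]
    rw [e1]
    have hind := hi.indepFun_finset (B y0) U hdis hm
    have h2 := hind.measure_inter_preimage_eq_mul (D y0) D' MeasurableSet.of_discrete MeasurableSet.of_discrete
    unfold Measure.real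
    rw [h2, ENNReal.toReal_mul]

end Pool.Agent.T9h55.KT
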