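import Pool.Agent.T9h55.KT.Hit
import Pool.Agent.T9h55.KT.Ap

/-! Full admissible patterns among the moved primes (helper55). -/

set_option autoImplicit false

namespace Pool.Agent.T9h55.KT

open Finset Filter Topology MeasureTheory ProbabilityTheory

variable {Ω : Type*} [MeasurableSpace Ω] {μ : Measure Ω}

/-- the moved prime -/
def mv (z : ℕ → ℕ) (ξ : ℕ → Ω → ℕ) (ω : Ω) (p : ℕ) : ℕ := p + (z p).factorial * ξ p ω

/-- the set of the moved primes -/
def moved (z : ℕ → ℕ) (ξ : ℕ → Ω → ℕ) (ω : Ω) : Set ℕ := {n | ∃ p : ℕ, p.Prime ∧ n = mv z ξ ω p}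

/-- the positions without prime factors up to `k` -/
def sv (k m : ℕ) : Finset ℕ := (Ioc 0 k).filter fun y => Nat.Coprime (m + y) (primorial k)

open Classical in
/-- the good `x` -/
noncomputable def good (z : ℕ → ℕ) (ξ : ℕ → Ω → ℕ) (k m X : ℕ) (ω : Ω) : Finset ℕ :=
  (Ioc X (2 * X)).filter fun x => x ≡ m [MOD primorial k] ∧ ∀ y ∈ sv k m, x + y ∈ moved z ξ ω

lemma primorial_dvd_fact {k n : ℕ} (h : k ≤ n) : primorial k ∣ n.factorial := by
  unfold primorial
  apply Finset.prod_primes_dvd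
  · intro p hp
    rw [mem_filter] at hp
    exact hp.2.prime
  · intro p hp
    rw [mem_filter, mem_range] at hp
    exact (hp.2.dvd_factorial).2 (by omega)

lemma res_exists (k m n : ℕ) : ∃ r : ℕ, r ≡ m [MOD primorial k] ∧ ∀ y ∈ sv k m, Nat.Coprime (r + y) n.factorial := by
  set R : ℕ := ∏ q ∈ (Ioc k n).filter Nat.Prime, q with hR
  have hco : Nat.Coprime (primorial k) R := by
    rw [hR]
    apply Nat.Coprime.prod_right
    intro q hq
    rw [mem_filter, mem_Ioc] at hq
    rw [Nat.coprime_comm, hq.2.coprime_iff_not_dvd, hq.2.dvd_primorial_iff]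
    omega
  obtain ⟨r, hr1, hr2⟩ := Nat.chineseRemainder hco m 0
  refine ⟨r, hr1, fun y hy => ?_⟩
  unfold sv at hy
  rw [mem_filter, mem_Ioc] at hy
  obtain ⟨⟨hy1, hy2⟩, hy3⟩ := hy
  rw [Nat.coprime_iff_gcd_eq_one]
  by_contra hne
  obtain ⟨q, hq, hd⟩ := Nat.exists_prime_and_dvd hne
  have hq1 : q ∣ r + y := hd.trans (Nat.gcd_dvd_left _ _)
  have hq2 : q ≤ n := (hq.dvd_factorial).1 (hd.trans (Nat.gcd_dvd_right _ _))
  rcases Nat.lt_or_ge k q with h | h
  · have h1 : q ∣ R := Finset.dvd_prod_of_mem (fun q => q) (by rw [mem_filter, mem_Ioc]; exact ⟨⟨h, hq2⟩, hq⟩)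
    have h2 : q ∣ r := ((Nat.modEq_zero_iff_dvd).1 (hr2.of_dvd h1))
    have h3 : q ∣ y := (Nat.dvd_add_right h2).1 hq1
    exact absurd (Nat.le_of_dvd hy1 h3) (by omega)
  · have h1 : q ∣ primorial k := (hq.dvd_primorial_iff).2 h
    have h2 : r + y ≡ m + y [MOD q] := (hr1.of_dvd h1).add_right y
    have h3 : q ∣ m + y := (h2.dvd_iff dvd_rfl).1 hq1
    have h4 : q ∣ Nat.gcd (m + y) (primorial k) := Nat.dvd_gcd h3 h1
    rw [hy3] at h4
    exact hq.one_lt.ne' (Nat.dvd_one.1 h4)

lemma exists_start (X M r : ℕ) (hM : 1 ≤ M) : ∃ X0, X < X0 ∧ X0 ≤ X + M ∧ X0 ≡ r [MOD M] := by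
  refine ⟨X + 1 + (r + M * (X + 1) - (X + 1)) % M, by omega, ?_, ?_⟩
  · have := Nat.mod_lt (r + M * (X + 1) - (X + 1)) (show M > 0 by omega)
    omega
  · have h1 : X + 1 ≤ r + M * (X + 1) := by nlinarith
    have h2 : (r + M * (X + 1) - (X + 1)) % M ≡ r + M * (X + 1) - (X + 1) [MOD M] := Nat.mod_modEq _ _
    have h3 := h2.add_left (X + 1)
    rw [Nat.add_sub_cancel' h1] at h3
    refine h3.trans ?_
    have h4 : M * (X + 1) ≡ 0 [MOD M] := (Nat.modEq_zero_iff_dvd).2 (dvd_mul_right _ _)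
    exact h4.add_left r

/-- growth -/
lemma pow_log_le (c : ℝ) (E : ℕ) : ∀ᶠ X : ℕ in atTop, c * Real.log X ^ E ≤ X := by
  have hc : (0 : ℝ) < |c| + 1 := by positivity
  have h2 := (isLittleO_log_rpow_rpow_atTop (s := 1) (E : ℝ) (by norm_num)).def (one_div_pos.2 hc)
  have h3 := tendsto_natCast_atTop_atTop.eventually h2
  filter_upwards [h3, eventually_ge_atTop 1] with n h4 h5
  have hn1 : (1 : ℝ) ≤ n := by exact_mod_cast h5
  have hl := Real.log_nonneg hn1
  rw [Real.rpow_natCast, Real.norm_eq_abs, Real.norm_eq_abs, abs_of_nonneg (pow_nonneg hl _),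
    Real.rpow_one, abs_of_nonneg (Nat.cast_nonneg n : (0 : ℝ) ≤ (n : ℝ)), one_div_mul_eq_div, le_div_iff₀ hc] at h4
  have h6 : 0 ≤ Real.log (n : ℝ) ^ E := pow_nonneg hl _
  have h7 : c ≤ |c| + 1 := by linarith [le_abs_self c]
  have h8 := mul_le_mul_of_nonneg_right h7 h6
  linarith

theorem core [IsProbabilityMeasure μ] (A k : ℕ) (z H : ℕ → ℕ) (ξ : ℕ → Ω → ℕ) (hz : Monotone z)
    (hk : ∀ᶠ n in atTop, k ≤ z n)
    (hM : ∀ᶠ n : ℕ in atTop, (((z n).factorial : ℕ) : ℝ) ≤ Real.log n ^ A)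
    (hH : ∀ᶠ n : ℕ in atTop, (n : ℝ) / Real.log n ^ A ≤ ((z n).factorial : ℝ) * H n ∧
      ((z n).factorial : ℝ) * H n ≤ (n : ℝ) * Real.log n ^ A)
    (hm : ∀ j, Measurable (ξ j)) (hi : iIndepFun ξ μ)
    (hu : ∀ j, 1 ≤ j → ∀ h < H j, μ.real {ω | ξ j ω = h} = 1 / (H j : ℝ)) :
    ∀ᶠ X : ℕ in atTop, ∀ m : ℕ, μ.real {ω | (#(good z ξ k m X ω) : ℝ) < X / (2 * Real.log X ^ (2 * A + 3 + (3 * A + 4) * k))} ≤
      4 * Real.log X ^ (2 * A + 3 + (3 * A + 4) * k) / X := by
  classical
  have hlog : Tendsto (fun k : ℕ => Real.log (k : ℝ)) atTop atTop := Real.tendsto_log_atTop.comp tendsto_natCast_atTop_atTop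
  obtain ⟨n1, hn1⟩ := eventually_atTop.1 hH
  filter_upwards [hlog.eventually_ge_atTop (8 + 4 * k), hk, hM, primes_ap A (A + 3), eventually_ge_atTop (2 * n1 + 8),
    pow_log_le 4 (2 * A + 2)] with X hL hkX hMX hap hX hgrow
  intro m
  set L : ℝ := Real.log X with hLd
  have hk0 : (0 : ℝ) ≤ k := Nat.cast_nonneg _
  have hL8 : 8 ≤ L := by linarith
  have hL0 : 0 < L := by linarith
  have hL1 : 1 ≤ L := by linarith
  have hX0 : (0 : ℝ) < X := by exact_mod_cast (by omega : 0 < X)
  set M : ℕ := (z X).factorial with hMd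
  have hM1 : 1 ≤ M := Nat.factorial_pos _
  have hM0 : (0 : ℝ) < M := by exact_mod_cast hM1
  have hLA : 1 ≤ L ^ A := one_le_pow₀ hL1
  -- the length
  set Y : ℕ := ⌊(X : ℝ) / L ^ (A + 2)⌋₊ with hY
  have hXL : 4 * L ^ A ≤ (X : ℝ) / L ^ (A + 2) := by
    rw [le_div_iff₀ (by positivity)]
    calc 4 * L ^ A * L ^ (A + 2) = 4 * L ^ (2 * A + 2) := by ring
      _ ≤ X := hgrow
  have hY2 : (Y : ℝ) ≤ X / L ^ (A + 2) := Nat.floor_le (by positivity)
  have hY1 : (X : ℝ) / (2 * L ^ (A + 2)) ≤ Y := by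
    have h1 := Nat.lt_floor_add_one ((X : ℝ) / L ^ (A + 2))
    rw [← hY] at h1
    have h2 : (X : ℝ) / (2 * L ^ (A + 2)) = (X / L ^ (A + 2)) / 2 := by
      field_simp
    rw [h2]
    linarith
  have hYM : 2 * (M : ℝ) ≤ Y := by
    have h2 : (X : ℝ) / (2 * L ^ (A + 2)) = (X / L ^ (A + 2)) / 2 := by
      field_simp
    rw [h2] at hY1
    linarith
  have hY0 : (0 : ℝ) < Y := by linarith
  set N : ℕ := Y / M with hN
  have hNM : N * M ≤ Y := Nat.div_mul_le_self _ _
  have hN1 : (Y : ℝ) / (2 * M) ≤ N := by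
    have h1 : Y < (N + 1) * M := by
      rw [hN]
      have := Nat.lt_div_mul_add (a := Y) (show 0 < M by omega)
      rw [add_mul, one_mul]
      exact this
    have h2 : (Y : ℝ) < ((N : ℝ) + 1) * M := by exact_mod_cast h1
    rw [div_le_iff₀ (by positivity)]
    nlinarith
  have hNpos : 0 < N := by
    have : (0 : ℝ) < N := lt_of_lt_of_le (by positivity) hN1
    exact_mod_cast this
  obtain ⟨r, hr1, hr2⟩ := res_exists k m (z X)
  obtain ⟨X0, hX0a, hX0b, hX0c⟩ := exists_start X M r hM1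
  set S : Finset ℕ := sv k m with hS
  have hSk : ∀ y ∈ S, 0 < y ∧ y ≤ k := by
    intro y hy
    rw [hS] at hy
    unfold sv at hy
    rw [mem_filter, mem_Ioc] at hy
    exact hy.1
  have hScard : #S ≤ k := by
    have : S ⊆ Ioc 0 k := filter_subset _ _
    have h2 := card_le_card this
    rwa [Nat.card_Ioc, Nat.sub_zero] at h2
  -- the intervals
  have hkY : (2 * (k : ℝ) + 2) * (2 * Y) ≤ X / L ^ A := by
    have h1 : (2 * (k : ℝ) + 2) * 2 ≤ L ^ 2 := by nlinarith
    calc (2 * (k : ℝ) + 2) * (2 * Y) = ((2 * (k : ℝ) + 2) * 2) * Y := by ring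
      _ ≤ L ^ 2 * (X / L ^ (A + 2)) := mul_le_mul h1 hY2 (by positivity) (by positivity)
      _ = X / L ^ A := by
          rw [pow_add]
          field_simp
  have hkYn : 2 * ((k + 1) * Y) ≤ X := by
    have h1 : (X : ℝ) / L ^ A ≤ X := div_le_self hX0.le hLA
    have h2 : (2 * ((k + 1) * Y) : ℝ) ≤ X := by nlinarith
    exact_mod_cast h2
  set B : ℕ → Finset ℕ := fun y => (Ioc (X - (y + 1) * Y) (X - y * Y)).filter fun p => p.Prime ∧ p ≡ r + y [MOD M] with hB
  have hBdis : (S : Set ℕ).PairwiseDisjoint B := by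
    intro y hy y' hy' hne
    rw [Function.onFun, Finset.disjoint_left]
    intro p hp hp'
    simp only [hB, mem_filter, mem_Ioc] at hp hp'
    have e1 : (y + 1) * Y = y * Y + Y := by ring
    have e2 : (y' + 1) * Y = y' * Y + Y := by ring
    rcases Nat.lt_or_ge y y' with h | h
    · have h1 : (y + 1) * Y ≤ y' * Y := Nat.mul_le_mul_right _ h
      omega
    · have h0 : y' < y := by omega
      have h1 : (y' + 1) * Y ≤ y * Y := Nat.mul_le_mul_right _ h0
      omega
  set v : ℕ → ℕ → ℕ → ℕ := fun t y p => (X0 + M * t + y - p) / (z p).factorial with hv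
  -- the facts on one ball
  have hfact : ∀ t < N, ∀ y ∈ S, ∀ p ∈ B y, 1 ≤ p ∧ p ≤ X ∧ p.Prime ∧ p < X0 + M * t + y ∧
      (z p).factorial * v t y p = X0 + M * t + y - p ∧ v t y p < H p ∧ (H p : ℝ) ≤ X * L ^ A ∧ 0 < H p := by
    intro t ht y hy p hp
    obtain ⟨hy0, hyk⟩ := hSk y hy
    simp only [hB, mem_filter, mem_Ioc] at hp
    obtain ⟨⟨hp1, hp2⟩, hp3, hp4⟩ := hp
    have hpX : p ≤ X := by omega
    have hyY : (y + 1) * Y ≤ (k + 1) * Y := Nat.mul_le_mul_right _ (by omega)
    have hpX2 : X ≤ 2 * p := by omega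
    have hdvd : (z p).factorial ∣ M := Nat.factorial_dvd_factorial (hz hpX)
    have hmod : X0 + M * t + y ≡ p [MOD M] := by
      have h1 : X0 + M * t ≡ r + 0 [MOD M] := hX0c.add ((Nat.modEq_zero_iff_dvd).2 (dvd_mul_right _ _))
      rw [add_zero] at h1
      exact (h1.add_right y).trans hp4.symm
    have hlt : p < X0 + M * t + y := by omega
    have hdvd2 : (z p).factorial ∣ X0 + M * t + y - p := by
      refine hdvd.trans ?_
      exact (Nat.modEq_iff_dvd' hlt.le).1 hmod.symm
    have hval : (z p).factorial * v t y p = X0 + M * t + y - p := Nat.mul_div_cancel' hdvd2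
    have hHp := hn1 p (by omega)
    have hp0 : (0 : ℝ) < p := by exact_mod_cast hp3.pos
    have hlogp : Real.log p ≤ L := Real.log_le_log hp0 (by exact_mod_cast hpX)
    have hlogp0 : 0 < Real.log p := Real.log_pos (by exact_mod_cast hp3.one_lt)
    have hz0 : (1 : ℝ) ≤ (z p).factorial := by exact_mod_cast Nat.factorial_pos _
    have hlow : (X : ℝ) / (2 * L ^ A) ≤ ((z p).factorial : ℝ) * H p := by
      refine le_trans ?_ hHp.1
      rw [div_le_div_iff₀ (by positivity) (by positivity)]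
      have h1 : (X : ℝ) ≤ 2 * p := by exact_mod_cast hpX2
      have h2 : Real.log p ^ A ≤ L ^ A := pow_le_pow_left₀ hlogp0.le hlogp A
      calc (X : ℝ) * Real.log p ^ A ≤ (2 * p) * L ^ A := mul_le_mul h1 h2 (by positivity) (by positivity)
        _ = p * (2 * L ^ A) := by ring
    have hH0 : (0 : ℝ) < H p := by
      have h1 : 0 < (X : ℝ) / (2 * L ^ A) := by positivity
      exact (mul_pos_iff_of_pos_left (by linarith)).1 (lt_of_lt_of_le h1 hlow)
    have hup : (H p : ℝ) ≤ X * L ^ A := by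
      have h2 : Real.log p ^ A ≤ L ^ A := pow_le_pow_left₀ hlogp0.le hlogp A
      have h3 : (p : ℝ) ≤ X := by exact_mod_cast hpX
      calc (H p : ℝ) ≤ ((z p).factorial : ℝ) * H p := le_mul_of_one_le_left hH0.le hz0
        _ ≤ (p : ℝ) * Real.log p ^ A := hHp.2
        _ ≤ X * L ^ A := mul_le_mul h3 h2 (by positivity) hX0.le
    have hvlt : v t y p < H p := by
      have h1 : X0 + M * t + y - p < (2 * k + 2) * Y := by
        have h2 : M * t ≤ M * (N - 1) := Nat.mul_le_mul_left _ (by omega)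
        have h3 : M * (N - 1) + M ≤ Y := by
          have h6 : M * (N - 1) + M = N * M := by
            have h7 : (N - 1) + 1 = N := by omega
            calc M * (N - 1) + M = ((N - 1) + 1) * M := by ring
              _ = N * M := by rw [h7]
          omega
        have h4 : 1 ≤ Y := by exact_mod_cast hY0
        have h5 : k ≤ k * Y := Nat.le_mul_of_pos_right _ (by omega)
        have e1 : (k + 1) * Y = k * Y + Y := by ring
        have e2 : (2 * k + 2) * Y = k * Y + k * Y + Y + Y := by ring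
        omega
      have h2 : (((z p).factorial * v t y p : ℕ) : ℝ) < (2 * k + 2) * Y := by
        rw [hval]
        exact_mod_cast h1
      have h3 : (2 * (k : ℝ) + 2) * Y ≤ X / (2 * L ^ A) := by
        have h4 : (X : ℝ) / (2 * L ^ A) = X / L ^ A / 2 := by
          field_simp
        rw [h4]
        linarith
      have h5 : ((z p).factorial : ℝ) * v t y p < ((z p).factorial : ℝ) * H p := by
        push_cast at h2
        linarith
      have h6 : ((v t y p : ℕ) : ℝ) < H p := lt_of_mul_lt_mul_left h5 (by linarith)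
      exact_mod_cast h6
    exact ⟨hp3.one_le, hpX, hp3, hlt, hval, hvlt, hup, by exact_mod_cast hH0⟩
  -- distinct values
  have hne : ∀ t ∈ range N, ∀ t' ∈ range N, t ≠ t' → ∀ y ∈ S, ∀ p ∈ B y, v t y p ≠ v t' y p := by
    intro t ht t' ht' htt y hy p hp heq
    rw [mem_range] at ht ht'
    have h1 := hfact t ht y hy p hp
    have h2 := hfact t' ht' y hy p hp
    have h3 : X0 + M * t + y - p = X0 + M * t' + y - p := by
      rw [← h1.2.2.2.2.1, ← h2.2.2.2.2.1, heq]
    have h4 : M * t = M * t' := by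
      have := h1.2.2.2.1
      have := h2.2.2.2.1
      omega
    exact htt (Nat.eq_of_mul_eq_mul_left hM1 h4)
  -- the sum of the probabilities
  set σ : ℝ := 1 / (4 * L ^ (3 * A + 3)) with hσd
  have hσ0 : 0 < σ := by positivity
  have hσ1 : σ ≤ 1 := by
    rw [hσd, div_le_one (by positivity)]
    have : 1 ≤ L ^ (3 * A + 3) := one_le_pow₀ hL1
    linarith
  have hσ : ∀ t ∈ range N, ∀ y ∈ S, σ ≤ ∑ p ∈ B y, pr μ ξ p (v t y p) := by
    intro t ht y hy
    rw [mem_range] at ht
    obtain ⟨hy0, hyk⟩ := hSk y hy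
    have hcard := hap M hM1 hMX (r + y) (hr2 y hy) (X - (y + 1) * Y) (X - y * Y) (by
        have e1 : (y + 1) * Y = y * Y + Y := by ring
        omega) (by omega) (by
        have hyY : (y + 1) * Y ≤ (k + 1) * Y := Nat.mul_le_mul_right _ (by omega)
        have e1 : (y + 1) * Y = y * Y + Y := by ring
        have h1 : X - y * Y = X - (y + 1) * Y + Y := by omega
        rw [h1]
        push_cast
        have h2 : (X : ℝ) / L ^ (A + 3) ≤ X / (2 * L ^ (A + 2)) := by
          apply div_le_div_of_nonneg_left hX0.le (by positivity)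
          rw [pow_succ L (A + 2)]
          have : 0 < L ^ (A + 2) := by positivity
          nlinarith
        linarith)
    have e0 : ((X - y * Y : ℕ) : ℝ) - ((X - (y + 1) * Y : ℕ) : ℝ) = Y := by
      have hyY : (y + 1) * Y ≤ (k + 1) * Y := Nat.mul_le_mul_right _ (by omega)
      have e1 : (y + 1) * Y = y * Y + Y := by ring
      have h1 : X - y * Y = X - (y + 1) * Y + Y := by omega
      rw [h1]
      push_cast
      ring
    rw [e0] at hcard
    have hpt : ∀ p ∈ B y, 1 / ((X : ℝ) * L ^ A) ≤ pr μ ξ p (v t y p) := by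
      intro p hp
      obtain ⟨h1, h2, h3, h4, h5, h6, h7, h8⟩ := hfact t ht y hy p hp
      unfold pr
      rw [hu p h1 _ h6]
      exact one_div_le_one_div_of_le (by exact_mod_cast h8) h7
    have h1 := Finset.sum_le_sum hpt
    rw [Finset.sum_const, nsmul_eq_mul] at h1
    refine le_trans ?_ h1
    have h2 : (Y : ℝ) / (2 * M * L) * (1 / ((X : ℝ) * L ^ A)) ≤ #(B y) * (1 / ((X : ℝ) * L ^ A)) :=
      mul_le_mul_of_nonneg_right hcard (by positivity)
    refine le_trans ?_ h2
    have h3 : (X : ℝ) / (2 * L ^ (A + 2)) / (2 * L ^ A * L) ≤ Y / (2 * M * L) := by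
      apply div_le_div₀ hY0.le hY1 (by positivity)
      apply mul_le_mul_of_nonneg_right _ hL0.le
      linarith
    calc σ = (X : ℝ) / (2 * L ^ (A + 2)) / (2 * L ^ A * L) * (1 / ((X : ℝ) * L ^ A)) := by
          rw [hσd]
          have e1 : L ^ (3 * A + 3) = L ^ (A + 2) * L ^ A * L ^ A * L := by ring
          rw [e1]
          field_simp
          ring
      _ ≤ _ := mul_le_mul_of_nonneg_right h3 (by positivity)
  have hb := bins hm hi S B hBdis (range N) ⟨0, mem_range.2 hNpos⟩ v hne hσ0 hσ1 hσ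
  rw [card_range] at hb
  set G : ℕ := 2 * A + 3 + (3 * A + 4) * k with hG
  have hE : (X : ℝ) / L ^ G ≤ N * (σ / 2) ^ #S := by
    have h1 : (1 : ℝ) / L ^ (3 * A + 4) ≤ σ / 2 := by
      rw [hσd, div_div]
      apply one_div_le_one_div_of_le (by positivity)
      rw [pow_succ L (3 * A + 3)]
      have : 0 < L ^ (3 * A + 3) := by positivity
      nlinarith
    have h2 : (1 : ℝ) / L ^ ((3 * A + 4) * k) ≤ (σ / 2) ^ #S := by
      calc (1 : ℝ) / L ^ ((3 * A + 4) * k) = (1 / L ^ (3 * A + 4)) ^ k := by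
            rw [div_pow, one_pow, ← pow_mul]
        _ ≤ (σ / 2) ^ k := pow_le_pow_left₀ (by positivity) h1 k
        _ ≤ (σ / 2) ^ #S := pow_le_pow_of_le_one (by positivity) (by linarith) hScard
    have h3 : (X : ℝ) / L ^ (2 * A + 3) ≤ N := by
      refine le_trans ?_ hN1
      have h4 : (X : ℝ) / (2 * L ^ (A + 2)) / (2 * L ^ A) ≤ Y / (2 * M) := by
        apply div_le_div₀ hY0.le hY1 (by positivity)
        linarith
      refine le_trans ?_ h4
      rw [div_div]
      apply div_le_div_of_nonneg_left hX0.le (by positivity)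
      have e1 : L ^ (2 * A + 3) = L ^ (A + 2) * L ^ A * L := by ring
      rw [e1]
      have : 0 < L ^ (A + 2) * L ^ A := by positivity
      nlinarith
    calc (X : ℝ) / L ^ G = X / L ^ (2 * A + 3) * (1 / L ^ ((3 * A + 4) * k)) := by
          rw [hG, pow_add L (2 * A + 3)]
          field_simp
      _ ≤ N * (σ / 2) ^ #S := mul_le_mul h3 h2 (by positivity) (by positivity)
  have hsub : {ω | (#(good z ξ k m X ω) : ℝ) < X / (2 * L ^ G)} ⊆
      {ω | (#((range N).filter fun t => ω ∈ full ξ S B v t) : ℝ) ≤ N * (σ / 2) ^ #S / 2} := by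
    intro ω hω
    simp only [Set.mem_ofPred_eq] at hω ⊢
    have h1 : #((range N).filter fun t => ω ∈ full ξ S B v t) ≤ #(good z ξ k m X ω) := by
      apply Finset.card_le_card_of_injOn (fun t => X0 + M * t)
      · intro t ht
        rw [mem_coe, mem_filter, mem_range] at ht
        obtain ⟨ht, hfull⟩ := ht
        rw [mem_coe]
        unfold good
        rw [mem_filter, mem_Ioc]
        beta_reduce
        have h2 : M * t ≤ M * (N - 1) := Nat.mul_le_mul_left _ (by omega)
        have h3 : M * (N - 1) + M ≤ Y := by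
          have h6 : M * (N - 1) + M = N * M := by
            have h7 : (N - 1) + 1 = N := by omega
            calc M * (N - 1) + M = ((N - 1) + 1) * M := by ring
              _ = N * M := by rw [h7]
          omega
        have h4 : Y ≤ X := by
          have : Y ≤ (k + 1) * Y := Nat.le_mul_of_pos_left _ (by omega)
          omega
        refine ⟨⟨by omega, by omega⟩, ?_, ?_⟩
        · have h5 : primorial k ∣ M := primorial_dvd_fact hkX
          have h6 : X0 + M * t ≡ r + 0 [MOD M] := hX0c.add ((Nat.modEq_zero_iff_dvd).2 (dvd_mul_right _ _))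
          exact (h6.of_dvd h5).trans hr1
        · intro y hy
          unfold full at hfull
          simp only [Set.mem_iInter] at hfull
          have h5 := hfull y hy
          unfold miss at h5
          simp only [Set.mem_compl_iff, Set.mem_ofPred_eq, not_forall, not_not, exists_prop] at h5
          obtain ⟨p, hp, hpe⟩ := h5
          obtain ⟨g1, g2, g3, g4, g5, g6, g7, g8⟩ := hfact t ht y hy p hp
          refine ⟨p, g3, ?_⟩
          unfold mv
          rw [hpe, g5]
          omega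
      · intro t _ t' _ heq
        beta_reduce at heq
        have h2 : M * t = M * t' := by omega
        exact Nat.eq_of_mul_eq_mul_left hM1 h2
    have h2 : (#((range N).filter fun t => ω ∈ full ξ S B v t) : ℝ) ≤ #(good z ξ k m X ω) := by exact_mod_cast h1
    have h3 : (X : ℝ) / (2 * L ^ G) = X / L ^ G / 2 := by
      field_simp
    rw [h3] at hω
    linarith
  have hXG : 0 < (X : ℝ) / L ^ G := by positivity
  calc μ.real {ω | (#(good z ξ k m X ω) : ℝ) < X / (2 * L ^ G)} ≤ _ := measureReal_mono hsub (measure_ne_top μ _)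
    _ ≤ 4 / (N * (σ / 2) ^ #S) := hb
    _ ≤ 4 / (X / L ^ G) := div_le_div_of_nonneg_left (by norm_num) hXG hE
    _ = 4 * L ^ G / X := by
        field_simp

end Pool.Agent.T9h55.KT
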