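import Pool.Agent.T9h55.KT.Core
import Pool.Agent.T9h55.KT.ApT
import Pool.Agent.T9h55.KQ.Win

/-! The probability that an integer is the value of a moved prime (helper55). -/

set_option autoImplicit false

namespace Pool.Agent.T9h55.KT

open Finset Filter Topology MeasureTheory ProbabilityTheory
open Pool.Agent.H373R2.T7 (pz Vz mem_pz Vz_pos)
open Pool.Agent.T9h55.KQ (rt_fact)
open Pool.Agent.N718.DC (rt)

variable {Ω : Type*} [MeasurableSpace Ω] {μ : Measure Ω}

theorem hit_sum [IsProbabilityMeasure μ] (A K : ℕ) (hK : 1 ≤ K) (e : ℕ → ℝ) (he : Antitone e) (he0 : ∀ n, 0 < e n) (z H : ℕ → ℕ) (ξ : ℕ → Ω → ℕ)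
    (hM : ∀ᶠ n : ℕ in atTop, (((z n).factorial : ℕ) : ℝ) ≤ Real.log n ^ A)
    (hH : ∀ᶠ n : ℕ in atTop, (n : ℝ) / (K * Real.log n ^ A) ≤ ((z n).factorial : ℝ) * H n ∧
      ((z n).factorial : ℝ) * H n ≤ (K : ℝ) * n / Real.log n ^ A)
    (hu : ∀ j, 1 ≤ j → ∀ h < H j, e j / (H j : ℝ) ≤ μ.real {ω | ξ j ω = h}) :
    ∀ᶠ n : ℕ in atTop, ∀ b J : ℕ, n ≤ 10 * b → b ≤ n → (∀ p, 200 * b ≤ 200 * p + n → p ≤ b → z p = J) →
      Nat.Coprime b J.factorial → ∀ B : Finset ℕ, (∀ p, 200 * b ≤ 200 * p + n → p ≤ b → p.Prime → p ∈ B) →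
      e n * ((Vz J)⁻¹ / (800 * 2 ^ A * (K : ℝ) ^ 2 * Real.log n)) ≤ ∑ p ∈ B, pr μ (fun p ω => mv z ξ ω p) p b := by
  classical
  have hlog : Tendsto (fun k : ℕ => Real.log (k : ℝ)) atTop atTop := Real.tendsto_log_atTop.comp tendsto_natCast_atTop_atTop
  obtain ⟨n1, hn1⟩ := eventually_atTop.1 hH
  obtain ⟨n2, hn2⟩ := eventually_atTop.1 hM
  filter_upwards [hlog.eventually_ge_atTop (400 * K + 2), primes_ap' A (A + 1), eventually_ge_atTop (20 * n1 + 20 * n2 + 400),
    pow_log_le (400 * K) A] with n hL hap hn hgrow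
  intro b J hb1 hb2 hJ hco B hB
  have hen := he0 n
  set L : ℝ := Real.log n with hLd
  have hK1 : (1 : ℝ) ≤ K := by exact_mod_cast hK
  have hK0 : (0 : ℝ) < K := by linarith
  have hL2 : 2 ≤ L := by linarith
  have hL0 : 0 < L := by linarith
  have hL1 : 1 ≤ L := by linarith
  have hLA : 1 ≤ L ^ A := one_le_pow₀ hL1
  have hLA0 : 0 < L ^ A := by linarith
  have hn0 : (0 : ℝ) < n := by exact_mod_cast (by omega : 0 < n)
  set w : ℕ := ⌊(n : ℝ) / (200 * K * L ^ A)⌋₊ with hw
  have hw1 : (w : ℝ) ≤ n / (200 * K * L ^ A) := Nat.floor_le (by positivity)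
  have hw2 : (n : ℝ) / (400 * K * L ^ A) ≤ w := by
    have h1 := Nat.lt_floor_add_one ((n : ℝ) / (200 * K * L ^ A))
    rw [← hw] at h1
    have h2 : (1 : ℝ) ≤ n / (400 * K * L ^ A) := by
      rw [le_div_iff₀ (by positivity), one_mul]
      exact hgrow
    have h3 : (n : ℝ) / (200 * K * L ^ A) = n / (400 * K * L ^ A) + n / (400 * K * L ^ A) := by
      field_simp
      norm_num
    linarith
  have hw3 : 200 * w ≤ n := by
    have h1 : (n : ℝ) / (200 * K * L ^ A) ≤ n / 200 := by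
      apply div_le_div_of_nonneg_left hn0.le (by norm_num)
      nlinarith
    have h2 : 200 * (w : ℝ) ≤ n := by linarith
    exact_mod_cast h2
  set M : ℕ := J.factorial with hMd
  have hM1 : 1 ≤ M := Nat.factorial_pos _
  have hM0 : (0 : ℝ) < M := by exact_mod_cast hM1
  have hlogb : Real.log b ≤ L := Real.log_le_log (by exact_mod_cast (by omega : 0 < b)) (by exact_mod_cast hb2)
  have hlogb0 : 0 ≤ Real.log b := Real.log_nonneg (by exact_mod_cast (by omega : 1 ≤ b))
  have hML : (M : ℝ) ≤ L ^ A := by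
    have h1 := hn2 b (by omega)
    rw [hJ b (by omega) le_rfl] at h1
    exact h1.trans (pow_le_pow_left₀ hlogb0 hlogb A)
  -- the number of the primes
  have hcard := hap M hM1 hML b hco (b - w) b (Nat.sub_le _ _) hb2 (by
    rw [Nat.cast_sub (by omega)]
    have h1 : (n : ℝ) / L ^ (A + 1) ≤ n / (400 * K * L ^ A) := by
      apply div_le_div_of_nonneg_left hn0.le (by positivity)
      rw [pow_succ]
      nlinarith
    linarith)
  have e0 : (b : ℝ) - ((b - w : ℕ) : ℝ) = w := by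
    rw [Nat.cast_sub (by omega)]
    ring
  rw [e0] at hcard
  set S : Finset ℕ := (Ioc (b - w) b).filter fun p => p.Prime ∧ p ≡ b [MOD M] with hS
  have hSB : S ⊆ B := by
    intro p hp
    rw [hS, mem_filter, mem_Ioc] at hp
    exact hB p (by omega) (by omega) hp.2.1
  have hpt : ∀ p ∈ S, e n * ((M : ℝ) * L ^ A / (2 ^ A * K * n)) ≤ pr μ (fun p ω => mv z ξ ω p) p b := by
    intro p hp
    rw [hS, mem_filter, mem_Ioc] at hp
    obtain ⟨⟨hp1, hp2⟩, hp3, hp4⟩ := hp
    have hzp : z p = J := hJ p (by omega) hp2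
    have hdvd : M ∣ b - p := (Nat.modEq_iff_dvd' hp2).1 hp4
    have hval : p + M * ((b - p) / M) = b := by
      rw [Nat.mul_div_cancel' hdvd]
      omega
    have hp20 : n ≤ 20 * p := by omega
    have hp0 : (0 : ℝ) < p := by exact_mod_cast hp3.pos
    have hHp := hn1 p (by omega)
    rw [hzp] at hHp
    have hlogp : Real.log p ≤ L := Real.log_le_log hp0 (by exact_mod_cast (by omega : p ≤ n))
    have hlogp2 : L / 2 ≤ Real.log p := by
      have h1 : (n : ℝ) ≤ p ^ 2 := by
        have : n ≤ p ^ 2 := by nlinarith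
        exact_mod_cast this
      have h2 := Real.log_le_log hn0 h1
      rw [Real.log_pow] at h2
      push_cast at h2
      linarith
    have hlogp0 : 0 < Real.log p := by linarith
    -- the value is admissible
    have hlow : (n : ℝ) / (20 * K * L ^ A) ≤ (M : ℝ) * H p := by
      refine le_trans ?_ hHp.1
      rw [div_le_div_iff₀ (by positivity) (by positivity)]
      have h1 : (n : ℝ) ≤ 20 * p := by exact_mod_cast hp20
      have h2 : Real.log p ^ A ≤ L ^ A := pow_le_pow_left₀ hlogp0.le hlogp A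
      calc (n : ℝ) * (K * Real.log p ^ A) ≤ (20 * p) * (K * L ^ A) :=
            mul_le_mul h1 (mul_le_mul_of_nonneg_left h2 hK0.le) (by positivity) (by positivity)
        _ = p * (20 * K * L ^ A) := by ring
    have hH0 : (0 : ℝ) < H p := by
      have h1 : 0 < (n : ℝ) / (20 * K * L ^ A) := by positivity
      exact (mul_pos_iff_of_pos_left hM0).1 (lt_of_lt_of_le h1 hlow)
    have hvlt : (b - p) / M < H p := by
      have h1 : (((M * ((b - p) / M) : ℕ) : ℝ)) < M * H p := by
        rw [Nat.mul_div_cancel' hdvd]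
        have h2 : ((b - p : ℕ) : ℝ) ≤ w := by exact_mod_cast (by omega : b - p ≤ w)
        have h3 : (n : ℝ) / (200 * K * L ^ A) < n / (20 * K * L ^ A) := by
          apply div_lt_div_of_pos_left hn0 (by positivity)
          nlinarith [mul_pos hK0 hLA0]
        linarith
      push_cast at h1
      have h2 := lt_of_mul_lt_mul_left h1 hM0.le
      exact_mod_cast h2
    have hup : (M : ℝ) * H p ≤ K * n / (L / 2) ^ A := by
      refine hHp.2.trans ?_
      have h2 : (L / 2) ^ A ≤ Real.log p ^ A := pow_le_pow_left₀ (by positivity) hlogp2 A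
      have h3 : (p : ℝ) ≤ n := by exact_mod_cast (by omega : p ≤ n)
      have h4 : 0 < (L / 2) ^ A := by positivity
      gcongr
    have h5 : (M : ℝ) * L ^ A / (2 ^ A * K * n) ≤ 1 / (H p : ℝ) := by
      rw [div_le_div_iff₀ (by positivity) hH0]
      rw [le_div_iff₀ (by positivity), div_pow] at hup
      have e1 : (M : ℝ) * L ^ A * H p = (M * H p * (L ^ A / 2 ^ A)) * 2 ^ A := by
        field_simp
      rw [e1]
      calc (M * H p * (L ^ A / 2 ^ A)) * 2 ^ A ≤ (K * n) * 2 ^ A := mul_le_mul_of_nonneg_right hup (by positivity)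
        _ = 1 * (2 ^ A * K * n) := by ring
    have h6 : e n * ((M : ℝ) * L ^ A / (2 ^ A * K * n)) ≤ e p / (H p : ℝ) := by
      have h7 := mul_le_mul_of_nonneg_left h5 hen.le
      rw [mul_one_div] at h7
      exact h7.trans (div_le_div_of_nonneg_right (he (by omega : p ≤ n)) hH0.le)
    refine h6.trans ?_
    unfold pr
    refine (hu p hp3.one_le _ hvlt).trans ?_
    apply measureReal_mono _ (measure_ne_top μ _)
    intro ω hω
    simp only [Set.mem_ofPred_eq] at hω ⊢
    unfold mv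
    rw [hω, hzp]
    exact hval
  have h1 : (#S : ℝ) * (e n * ((M : ℝ) * L ^ A / (2 ^ A * K * n))) ≤ ∑ p ∈ S, pr μ (fun p ω => mv z ξ ω p) p b := by
    have := Finset.sum_le_sum hpt
    rwa [Finset.sum_const, nsmul_eq_mul] at this
  have h2 : ∑ p ∈ S, pr μ (fun p ω => mv z ξ ω p) p b ≤ ∑ p ∈ B, pr μ (fun p ω => mv z ξ ω p) p b :=
    Finset.sum_le_sum_of_subset_of_nonneg hSB fun _ _ _ => measureReal_nonneg
  refine le_trans ?_ (h1.trans h2)
  have hφ0 : (0 : ℝ) < Nat.totient M := by exact_mod_cast Nat.totient_pos.2 hM1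
  have hrt : (Vz J)⁻¹ = (M : ℝ) / Nat.totient M := by
    rw [← rt_fact]
    rfl
  rw [hrt]
  have h3 : (n : ℝ) / (400 * K * L ^ A) / (2 * Nat.totient M * L) ≤ #S := by
    refine le_trans ?_ hcard
    exact div_le_div_of_nonneg_right hw2 (by positivity)
  calc e n * ((M : ℝ) / Nat.totient M / (800 * 2 ^ A * (K : ℝ) ^ 2 * L)) =
      (n : ℝ) / (400 * K * L ^ A) / (2 * Nat.totient M * L) * (e n * ((M : ℝ) * L ^ A / (2 ^ A * K * n))) := by
        field_simp
        norm_num
    _ ≤ _ := mul_le_mul_of_nonneg_right h3 (by positivity)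

end Pool.Agent.T9h55.KT
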