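import Pool.Agent.T9h55.KQ.Win
import Pool.Agent.H373R2.T7.SysCount

/-! Pairs of integers with the sum `n` without small prime factors (helper55). -/

set_option autoImplicit false

namespace Pool.Agent.T9h55.KT

open Finset Filter Topology
open Pool.Agent.H373R2.T7 (pz Vz mem_pz Vz_ge Vz_pos Vz_le_one nuB PerB sys_count)
open Pool.Agent.T9h55.KQ (inv_Vz_le)

/-- the factor -/
noncomputable def gf (p : ℕ) : ℝ := if p ≤ 2 then 1 else 1 - 1 / ((p : ℝ) - 1) ^ 2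

lemma gf_nonneg (p : ℕ) : 0 ≤ gf p ∧ gf p ≤ 1 := by
  unfold gf
  split_ifs with h
  · exact ⟨zero_le_one, le_rfl⟩
  · have h3 : (3 : ℝ) ≤ p := by exact_mod_cast (by omega : 3 ≤ p)
    have h4 : (1 : ℝ) ≤ ((p : ℝ) - 1) ^ 2 := by nlinarith
    have h5 : 1 / ((p : ℝ) - 1) ^ 2 ≤ 1 := (div_le_one (by positivity)).2 h4
    have h6 : 0 ≤ 1 / ((p : ℝ) - 1) ^ 2 := by positivity
    constructor <;> linarith

lemma pz_succ_prime {z : ℕ} (hp : (z + 1).Prime) : pz (z + 1) = insert (z + 1) (pz z) := by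
  ext p
  rw [mem_insert, mem_pz, mem_pz]
  constructor
  · rintro ⟨h1, h2⟩
    rcases Nat.lt_or_ge p (z + 1) with h | h
    · exact Or.inr ⟨by omega, h2⟩
    · exact Or.inl (by omega)
  · rintro (h | ⟨h1, h2⟩)
    · rw [h]; exact ⟨le_rfl, hp⟩
    · exact ⟨by omega, h2⟩

lemma pz_succ_not {z : ℕ} (hp : ¬ (z + 1).Prime) : pz (z + 1) = pz z := by
  ext p
  rw [mem_pz, mem_pz]
  constructor
  · rintro ⟨h1, h2⟩
    rcases Nat.lt_or_ge p (z + 1) with h | h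
    · exact ⟨by omega, h2⟩
    · exact absurd ((by omega : p = z + 1) ▸ h2) hp
  · rintro ⟨h1, h2⟩
    exact ⟨by omega, h2⟩

lemma gf_prod_aux (z : ℕ) (hz : 2 ≤ z) : (z : ℝ) / (2 * ((z : ℝ) - 1)) ≤ ∏ p ∈ pz z, gf p := by
  induction z, hz using Nat.le_induction with
  | base =>
    have h1 : ∏ p ∈ pz 2, gf p = 1 := by
      apply Finset.prod_eq_one
      intro p hp
      rw [mem_pz] at hp
      unfold gf
      rw [if_pos hp.1]
    rw [h1]
    norm_num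
  | succ z hz ih =>
    have hz2 : (2 : ℝ) ≤ z := by exact_mod_cast hz
    have hz1 : (0 : ℝ) < (z : ℝ) - 1 := by linarith
    by_cases hp : (z + 1).Prime
    · rw [pz_succ_prime hp, prod_insert (by rw [mem_pz]; omega)]
      have e : gf (z + 1) = 1 - 1 / (z : ℝ) ^ 2 := by
        unfold gf
        rw [if_neg (by omega)]
        push_cast
        ring
      have h0 := (gf_nonneg (z + 1)).1
      rw [e] at h0 ⊢
      refine le_trans (le_of_eq ?_) (mul_le_mul_of_nonneg_left ih h0)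
      have hz0 : (z : ℝ) ≠ 0 := by positivity
      have hz3 : (z : ℝ) - 1 ≠ 0 := hz1.ne'
      push_cast
      rw [show (z : ℝ) + 1 - 1 = z by ring]
      field_simp
      ring
    · rw [pz_succ_not hp]
      refine le_trans ?_ ih
      push_cast
      rw [div_le_div_iff₀ (by linarith) (by linarith)]
      nlinarith

lemma gf_prod (z : ℕ) : 1 / 2 ≤ ∏ p ∈ pz z, gf p := by
  rcases Nat.lt_or_ge z 2 with h | h
  · have h1 : ∏ p ∈ pz z, gf p = 1 := by
      apply Finset.prod_eq_one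
      intro p hp
      rw [mem_pz] at hp
      unfold gf
      rw [if_pos (by omega)]
    rw [h1]
    norm_num
  · refine le_trans ?_ (gf_prod_aux z h)
    have hz2 : (2 : ℝ) ≤ z := by exact_mod_cast h
    rw [div_le_div_iff₀ (by norm_num) (by linarith)]
    linarith

/-- the forbidden classes -/
def QG (n Z : ℕ) (p a : ℕ) : Prop := (p ≤ Z ∧ a % p = 0) ∨ a % p = n % p

lemma nu_le_two (n Z p : ℕ) : nuB (QG n Z) p ≤ 2 := by
  classical
  unfold nuB
  have : (range p).filter (fun r => QG n Z p r) ⊆ {0, n % p} := by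
    intro r hr
    rw [mem_filter, mem_range] at hr
    unfold QG at hr
    rw [Nat.mod_eq_of_lt hr.1] at hr
    rw [mem_insert, mem_singleton]
    rcases hr.2 with h | h
    · exact Or.inl h.2
    · exact Or.inr h
  exact (card_le_card this).trans Finset.card_le_two

lemma nu_le_one (n Z p : ℕ) (h : Z < p ∨ p ∣ n) : nuB (QG n Z) p ≤ 1 := by
  classical
  unfold nuB
  have : (range p).filter (fun r => QG n Z p r) ⊆ {n % p} := by
    intro r hr
    rw [mem_filter, mem_range] at hr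
    unfold QG at hr
    rw [Nat.mod_eq_of_lt hr.1] at hr
    rw [mem_singleton]
    rcases hr.2 with h1 | h1
    · rcases h with h2 | h2
      · omega
      · rw [h1.2, Nat.mod_eq_zero_of_dvd h2]
    · exact h1
  exact (card_le_card this).trans (by simp)

lemma perB (n Z : ℕ) : PerB (QG n Z) 2 := by
  refine ⟨fun p a => ?_, fun p _ => nu_le_two n Z p⟩
  unfold QG
  rw [Nat.mod_mod]

lemma prod_low (n Z1 Z2 : ℕ) (hn : Even n) (hZ : Z1 ≤ Z2) :
    Vz Z1 * Vz Z2 / 2 ≤ ∏ p ∈ pz Z2, (1 - (nuB (QG n Z1) p : ℝ) / p) := by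
  classical
  have h1 : ∏ p ∈ pz Z2, ((if p ≤ Z1 then (1 - 1 / (p : ℝ)) else 1) * (1 - 1 / (p : ℝ)) * gf p) ≤
      ∏ p ∈ pz Z2, (1 - (nuB (QG n Z1) p : ℝ) / p) := by
    apply Finset.prod_le_prod
    · intro p hp
      rw [mem_pz] at hp
      have hp2 : (2 : ℝ) ≤ p := by exact_mod_cast hp.2.two_le
      have h2 : 1 / (p : ℝ) ≤ 1 := (div_le_one (by linarith)).2 (by linarith)
      have h3 := (gf_nonneg p).1
      apply mul_nonneg (mul_nonneg _ (by linarith)) h3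
      split_ifs
      · linarith
      · exact zero_le_one
    · intro p hp
      rw [mem_pz] at hp
      have hp2 : (2 : ℝ) ≤ p := by exact_mod_cast hp.2.two_le
      have hp0 : (0 : ℝ) < p := by linarith
      have h2 : 1 / (p : ℝ) ≤ 1 := (div_le_one (by linarith)).2 (by linarith)
      have h2' : 0 ≤ 1 / (p : ℝ) := by positivity
      have h3 := gf_nonneg p
      have hone : nuB (QG n Z1) p ≤ 1 → 1 - 1 / (p : ℝ) ≤ 1 - (nuB (QG n Z1) p : ℝ) / p := by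
        intro h
        have : (nuB (QG n Z1) p : ℝ) / p ≤ 1 / p := div_le_div_of_nonneg_right (by exact_mod_cast h) hp0.le
        linarith
      split_ifs with hc
      · rcases Nat.lt_or_ge 2 p with h4 | h4
        · have h5 : (3 : ℝ) ≤ p := by exact_mod_cast h4
          have h6 : (nuB (QG n Z1) p : ℝ) / p ≤ 2 / p :=
            div_le_div_of_nonneg_right (by exact_mod_cast nu_le_two n Z1 p) hp0.le
          have e : (1 - 1 / (p : ℝ)) * (1 - 1 / (p : ℝ)) * gf p = 1 - 2 / p := by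
            unfold gf
            rw [if_neg (by omega)]
            have : (p : ℝ) - 1 ≠ 0 := by linarith
            field_simp
            ring
          rw [e]
          linarith
        · have h5 : p = 2 := le_antisymm h4 hp.2.two_le
          refine le_trans ?_ (hone (nu_le_one n Z1 p (Or.inr (by rw [h5]; exact hn.two_dvd))))
          calc (1 - 1 / (p : ℝ)) * (1 - 1 / (p : ℝ)) * gf p ≤ (1 - 1 / (p : ℝ)) * 1 * 1 := by
                apply mul_le_mul _ h3.2 h3.1 (by linarith)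
                apply mul_le_mul_of_nonneg_left (by linarith) (by linarith)
            _ = 1 - 1 / (p : ℝ) := by ring
      · refine le_trans ?_ (hone (nu_le_one n Z1 p (Or.inl (by omega))))
        calc 1 * (1 - 1 / (p : ℝ)) * gf p ≤ 1 * (1 - 1 / (p : ℝ)) * 1 :=
              mul_le_mul_of_nonneg_left h3.2 (by linarith)
          _ = 1 - 1 / (p : ℝ) := by ring
  refine le_trans ?_ h1
  rw [Finset.prod_mul_distrib, Finset.prod_mul_distrib]
  have e1 : ∏ p ∈ pz Z2, (if p ≤ Z1 then (1 - 1 / (p : ℝ)) else 1) = Vz Z1 := by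
    rw [← Finset.prod_filter]
    unfold Vz
    congr 1
    ext p
    rw [mem_filter, mem_pz, mem_pz]
    constructor
    · rintro ⟨⟨_, h2⟩, h3⟩
      exact ⟨h3, h2⟩
    · rintro ⟨h2, h3⟩
      exact ⟨⟨by omega, h3⟩, h2⟩
  have e2 : ∏ p ∈ pz Z2, (1 - 1 / (p : ℝ)) = Vz Z2 := rfl
  rw [e1, e2]
  have h2 := gf_prod Z2
  have h3 : 0 < Vz Z1 * Vz Z2 := mul_pos (Vz_pos _) (Vz_pos _)
  calc Vz Z1 * Vz Z2 / 2 = Vz Z1 * Vz Z2 * (1 / 2) := by ring
    _ ≤ _ := mul_le_mul_of_nonneg_left h2 h3.le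

lemma coprime_fact (a z : ℕ) : Nat.Coprime a z.factorial ↔ ∀ p ∈ pz z, ¬ p ∣ a := by
  constructor
  · intro h p hp hd
    rw [mem_pz] at hp
    have h1 : p ∣ Nat.gcd a (Nat.factorial z) := Nat.dvd_gcd hd ((hp.2.dvd_factorial).2 hp.1)
    rw [h] at h1
    exact hp.2.one_lt.ne' (Nat.dvd_one.1 h1)
  · intro h
    rw [Nat.coprime_iff_gcd_eq_one]
    by_contra hne
    obtain ⟨p, hp, hd⟩ := Nat.exists_prime_and_dvd hne
    exact h p (mem_pz.2 ⟨(hp.dvd_factorial).1 (hd.trans (Nat.gcd_dvd_right _ _)), hp⟩) (hd.trans (Nat.gcd_dvd_left _ _))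

/-- the pairs -/
def pairs (n Z1 Z2 a0 b0 : ℕ) : Finset ℕ :=
  (Ioc a0 b0).filter fun a => Nat.Coprime a Z1.factorial ∧ Nat.Coprime (n - a) Z2.factorial

lemma pairs_iff {n Z1 Z2 a : ℕ} (hZ : Z1 ≤ Z2) (ha : a ≤ n) :
    (Nat.Coprime a Z1.factorial ∧ Nat.Coprime (n - a) Z2.factorial) ↔ ∀ p ∈ pz Z2, ¬ QG n Z1 p a := by
  rw [coprime_fact, coprime_fact]
  have key : ∀ p, p ∣ n - a ↔ a % p = n % p := by
    intro p
    constructor
    · intro h
      exact (Nat.modEq_iff_dvd' ha).2 h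
    · intro h
      exact (Nat.modEq_iff_dvd' ha).1 h
  constructor
  · rintro ⟨h1, h2⟩ p hp hQ
    rcases hQ with ⟨h3, h4⟩ | h3
    · exact h1 p (mem_pz.2 ⟨h3, (mem_pz.1 hp).2⟩) (Nat.dvd_of_mod_eq_zero h4)
    · exact h2 p hp ((key p).2 h3)
  · intro h
    constructor
    · intro p hp hd
      rw [mem_pz] at hp
      exact h p (mem_pz.2 ⟨by omega, hp.2⟩) (Or.inl ⟨hp.1, Nat.mod_eq_zero_of_dvd hd⟩)
    · intro p hp hd
      exact h p hp (Or.inr ((key p).1 hd))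

theorem pairs_card : ∀ᶠ n : ℕ in atTop, Even n → ∀ a0 b0 Z1 Z2 : ℕ, n ≤ 10 * a0 → a0 ≤ b0 → b0 ≤ n →
    (n : ℝ) / 200 ≤ (b0 : ℝ) - a0 → 1 ≤ Z1 → Z1 ≤ Z2 → (Z2 : ℝ) + 1 ≤ Real.log n →
    (n : ℝ) / 1000 ≤ (Vz Z1)⁻¹ * (Vz Z2)⁻¹ * #(pairs n Z1 Z2 a0 b0) := by
  classical
  obtain ⟨N0, h0⟩ := sys_count 2 2 3 (by norm_num)
  have hlog : Tendsto (fun k : ℕ => Real.log (k : ℝ)) atTop atTop := Real.tendsto_log_atTop.comp tendsto_natCast_atTop_atTop
  filter_upwards [hlog.eventually_ge_atTop 16000, eventually_ge_atTop (10 * N0 + 100)] with n hL hn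
  intro hev a0 b0 Z1 Z2 ha10 hab hbn hlen hZ1 hZ hZL
  set L : ℝ := Real.log n with hLd
  have hL0 : 0 < L := by linarith
  have hn0 : (0 : ℝ) < n := by exact_mod_cast (by omega : 0 < n)
  -- logarithms
  have hlow : ∀ N : ℕ, n ≤ 10 * N → L / 2 ≤ Real.log N := by
    intro N hN
    have hN0 : (0 : ℝ) < N := by exact_mod_cast (by omega : 0 < N)
    have h1 : (n : ℝ) ≤ N ^ 2 := by
      have : n ≤ N ^ 2 := by nlinarith
      exact_mod_cast this
    have h2 := Real.log_le_log hn0 h1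
    rw [Real.log_pow] at h2
    push_cast at h2
    linarith
  have hcnt : ∀ N : ℕ, n ≤ 10 * N → N ≤ n →
      |(#((Icc 1 N).filter (fun a : ℕ => ∀ p ∈ pz Z2, ¬ QG n Z1 p a)) : ℝ) -
        N * ∏ p ∈ pz Z2, (1 - (nuB (QG n Z1) p : ℝ) / p)| ≤ 8 * n / L ^ 3 := by
    intro N hN1 hN2
    have hl := hlow N hN1
    have h1 := h0 N (by omega) Z2 (by omega) (by
      have h2 : (2 : ℝ) ≤ Real.log N := by linarith
      have h3 : L ≤ 2 * Real.log N := by linarith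
      nlinarith) (QG n Z1) (perB n Z1)
    refine h1.trans ?_
    have h2 : (L / 2) ^ 3 ≤ Real.log N ^ 3 := pow_le_pow_left₀ (by positivity) hl 3
    have h3 : (N : ℝ) ≤ n := by exact_mod_cast hN2
    calc (N : ℝ) / Real.log N ^ 3 ≤ n / (L / 2) ^ 3 := by gcongr
      _ = 8 * n / L ^ 3 := by
          rw [div_pow]
          field_simp
          norm_num
  have hA := hcnt a0 ha10 (by omega)
  have hB := hcnt b0 (by omega) hbn
  have e : pairs n Z1 Z2 a0 b0 = (Icc 1 b0).filter (fun a : ℕ => ∀ p ∈ pz Z2, ¬ QG n Z1 p a) \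
      (Icc 1 a0).filter (fun a : ℕ => ∀ p ∈ pz Z2, ¬ QG n Z1 p a) := by
    ext a
    unfold pairs
    simp only [Finset.mem_sdiff, Finset.mem_filter, Finset.mem_Ioc, Finset.mem_Icc]
    constructor
    · rintro ⟨⟨h1, h2⟩, h3⟩
      exact ⟨⟨⟨by omega, h2⟩, (pairs_iff hZ (by omega)).1 h3⟩, fun h4 => by omega⟩
    · rintro ⟨⟨⟨h1, h2⟩, h3⟩, h4⟩
      refine ⟨⟨?_, h2⟩, (pairs_iff hZ (by omega)).2 h3⟩
      by_contra h5
      exact h4 ⟨⟨h1, by omega⟩, h3⟩
  have hsub : (Icc 1 a0).filter (fun a : ℕ => ∀ p ∈ pz Z2, ¬ QG n Z1 p a) ⊆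
      (Icc 1 b0).filter (fun a : ℕ => ∀ p ∈ pz Z2, ¬ QG n Z1 p a) := by
    apply Finset.filter_subset_filter
    intro a ha
    rw [mem_Icc] at ha ⊢
    omega
  have hcard : (#(pairs n Z1 Z2 a0 b0) : ℝ) = (#((Icc 1 b0).filter (fun a : ℕ => ∀ p ∈ pz Z2, ¬ QG n Z1 p a)) : ℝ) -
      #((Icc 1 a0).filter (fun a : ℕ => ∀ p ∈ pz Z2, ¬ QG n Z1 p a)) := by
    rw [e, Finset.card_sdiff_of_subset hsub, Nat.cast_sub (card_le_card hsub)]
  set P : ℝ := ∏ p ∈ pz Z2, (1 - (nuB (QG n Z1) p : ℝ) / p) with hP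
  have hPl : Vz Z1 * Vz Z2 / 2 ≤ P := prod_low n Z1 Z2 hev hZ
  have hmain : ((b0 : ℝ) - a0) * P - 16 * n / L ^ 3 ≤ #(pairs n Z1 Z2 a0 b0) := by
    rw [hcard]
    rw [abs_le] at hA hB
    have e1 : 16 * (n : ℝ) / L ^ 3 = 8 * n / L ^ 3 + 8 * n / L ^ 3 := by ring
    rw [e1]
    nlinarith [hA.1, hA.2, hB.1, hB.2]
  have hV1 := Vz_pos Z1
  have hV2 := Vz_pos Z2
  have hV : (Vz Z1)⁻¹ * (Vz Z2)⁻¹ ≤ L * L := by
    have h1 := inv_Vz_le Z1
    have h2 := inv_Vz_le Z2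
    have h3 : (Z1 : ℝ) ≤ Z2 := by exact_mod_cast hZ
    exact mul_le_mul (by linarith) (by linarith) (inv_pos.2 hV2).le hL0.le
  have hVpos : 0 < (Vz Z1)⁻¹ * (Vz Z2)⁻¹ := mul_pos (inv_pos.2 hV1) (inv_pos.2 hV2)
  have h1 : (Vz Z1)⁻¹ * (Vz Z2)⁻¹ * (((b0 : ℝ) - a0) * P - 16 * n / L ^ 3) ≤
      (Vz Z1)⁻¹ * (Vz Z2)⁻¹ * #(pairs n Z1 Z2 a0 b0) := mul_le_mul_of_nonneg_left hmain hVpos.le
  refine le_trans ?_ h1
  have h2 : (Vz Z1)⁻¹ * (Vz Z2)⁻¹ * (16 * n / L ^ 3) ≤ n / 1000 := by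
    calc (Vz Z1)⁻¹ * (Vz Z2)⁻¹ * (16 * n / L ^ 3) ≤ (L * L) * (16 * n / L ^ 3) :=
          mul_le_mul_of_nonneg_right hV (by positivity)
      _ = 16 * n / L := by
          field_simp
      _ ≤ n / 1000 := by
          rw [div_le_div_iff₀ hL0 (by norm_num)]
          nlinarith
  have h3 : ((b0 : ℝ) - a0) / 2 ≤ (Vz Z1)⁻¹ * (Vz Z2)⁻¹ * (((b0 : ℝ) - a0) * P) := by
    have h4 : (0 : ℝ) ≤ (b0 : ℝ) - a0 := le_trans (by positivity) hlen
    calc ((b0 : ℝ) - a0) / 2 = (Vz Z1)⁻¹ * (Vz Z2)⁻¹ * (((b0 : ℝ) - a0) * (Vz Z1 * Vz Z2 / 2)) := by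
          field_simp
      _ ≤ _ := by
          apply mul_le_mul_of_nonneg_left _ hVpos.le
          exact mul_le_mul_of_nonneg_left hPl h4
  rw [mul_sub]
  linarith

end Pool.Agent.T9h55.KT
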