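import Pool.Agent.T9h55.KT.Two
import Pool.Agent.T9h55.KT.Sv
import Pool.Agent.T9h55.KT.HitS

/-! Sums of two moved primes (helper55). -/

set_option autoImplicit false

namespace Pool.Agent.T9h55.KT

open Finset Filter Topology MeasureTheory ProbabilityTheory
open Pool.Agent.H373R2.T7 (pz Vz mem_pz Vz_pos)
open Pool.Agent.T9h55.KQ (inv_Vz_le z_le_log)

variable {Ω : Type*} [MeasurableSpace Ω] {μ : Measure Ω}

open Classical in
/-- the representations of `n` as a sum of two moved primes -/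
noncomputable def reps (z : ℕ → ℕ) (ξ : ℕ → Ω → ℕ) (n : ℕ) (ω : Ω) : Finset ℕ :=
  (range (n + 1)).filter fun v => v ∈ moved z ξ ω ∧ n - v ∈ moved z ξ ω

/-- the choice of the ranges -/
lemma range_sel (n : ℕ) (hn : 1000 ≤ n) : ∃ a0 b0 j1 j2 : ℕ, n ≤ 10 * a0 ∧ a0 ≤ b0 ∧ 4 * b0 ≤ n ∧ n + 200 * a0 ≤ 200 * b0 ∧
    j1 ≤ j2 ∧ (∀ p, 200 * a0 ≤ 200 * p + n → p ≤ b0 → Nat.log 2 p = j1) ∧
    (∀ p, 200 * (n - b0) ≤ 200 * p + n → p ≤ n - a0 → Nat.log 2 p = j2) := by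
  obtain ⟨j, hj⟩ : ∃ j, j = Nat.log 2 (n / 4) := ⟨_, rfl⟩
  have h1 : 2 ^ j ≤ n / 4 := by
    rw [hj]
    exact Nat.pow_log_le_self 2 (by omega)
  have h2 : n / 4 < 2 ^ (j + 1) := by
    rw [hj]
    exact Nat.lt_pow_succ_log_self (by norm_num) _
  have hj1 : 1 ≤ j := by
    rw [hj]
    exact Nat.le_log_of_pow_le (by norm_num) (by omega)
  obtain ⟨i, rfl⟩ : ∃ i, j = i + 1 := ⟨j - 1, by omega⟩
  have hval : ∀ p k P : ℕ, P = 2 ^ k → P ≤ p → p < 2 * P → Nat.log 2 p = k := by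
    intro p k P hP h3 h4
    apply Nat.log_eq_of_pow_le_of_lt_pow
    · omega
    · rw [pow_succ]
      omega
  obtain ⟨Q, hQ⟩ : ∃ Q, Q = 2 ^ i := ⟨_, rfl⟩
  have e1 : 2 ^ (i + 1) = 2 * Q := by rw [hQ, pow_succ]; ring
  have e2 : 2 ^ (i + 2) = 4 * Q := by rw [hQ, pow_succ, pow_succ]; ring
  have e3 : 2 ^ (i + 3) = 8 * Q := by rw [hQ, pow_succ, pow_succ, pow_succ]; ring
  rw [e1] at h1
  have h2' : n / 4 < 4 * Q := by rw [← e2]; exact h2
  by_cases hA : 32 * Q ≤ 3 * n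
  · refine ⟨20 * n / 100, 21 * n / 100, i + 1, i + 3, by omega, by omega, by omega, by omega, by omega, ?_, ?_⟩
    · intro p h3 h4
      exact hval p (i + 1) (2 * Q) e1.symm (by omega) (by omega)
    · intro p h3 h4
      exact hval p (i + 3) (8 * Q) e3.symm (by omega) (by omega)
  · by_cases hB : 160 * Q ≤ 17 * n
    · refine ⟨13 * n / 100, 14 * n / 100, i, i + 3, by omega, by omega, by omega, by omega, by omega, ?_, ?_⟩
      · intro p h3 h4
        exact hval p i Q hQ (by omega) (by omega)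
      · intro p h3 h4
        exact hval p (i + 3) (8 * Q) e3.symm (by omega) (by omega)
    · refine ⟨16 * n / 100, 17 * n / 100, i, i + 2, by omega, by omega, by omega, by omega, by omega, ?_, ?_⟩
      · intro p h3 h4
        exact hval p i Q hQ (by omega) (by omega)
      · intro p h3 h4
        exact hval p (i + 2) (4 * Q) e2.symm (by omega) (by omega)

theorem gold [IsProbabilityMeasure μ] (A K : ℕ) (hK : 1 ≤ K) (e : ℕ → ℝ) (he : Antitone e) (he0 : ∀ n, 0 < e n) (he1 : ∀ n, e n ≤ 1) (y H : ℕ → ℕ) (ξ : ℕ → Ω → ℕ) (hy : Monotone y)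
    (hyt : Tendsto y atTop atTop)
    (hM : ∀ᶠ n : ℕ in atTop, (((y (Nat.log 2 n)).factorial : ℕ) : ℝ) ≤ Real.log n ^ A)
    (hH : ∀ᶠ n : ℕ in atTop, (n : ℝ) / (K * Real.log n ^ A) ≤ ((y (Nat.log 2 n)).factorial : ℝ) * H n ∧
      ((y (Nat.log 2 n)).factorial : ℝ) * H n ≤ (K : ℝ) * n / Real.log n ^ A)
    (hm : ∀ j, Measurable (ξ j)) (hi : iIndepFun ξ μ)
    (hu : ∀ j, 1 ≤ j → ∀ h < H j, e j / (H j : ℝ) ≤ μ.real {ω | ξ j ω = h}) :
    ∀ᶠ n : ℕ in atTop, Even n →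
      μ.real {ω | (#(reps (fun p => y (Nat.log 2 p)) ξ n ω) : ℝ) ≤
        e n ^ 2 / (4000 * (1600 * 2 ^ A * (K : ℝ) ^ 2) ^ 2) * (n / Real.log n ^ 2)} ≤
      2 * Real.exp (-(e n ^ 2 / (16000 * (1600 * 2 ^ A * (K : ℝ) ^ 2) ^ 2) * (n / Real.log n ^ 2))) := by
  classical
  have hlog : Tendsto (fun k : ℕ => Real.log (k : ℝ)) atTop atTop := Real.tendsto_log_atTop.comp tendsto_natCast_atTop_atTop
  obtain ⟨n2, hn2⟩ := eventually_atTop.1 hM
  obtain ⟨k0, hk0⟩ := eventually_atTop.1 (hyt.eventually_ge_atTop 1)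
  have hloglog : ∀ᶠ L : ℝ in atTop, 2 + 2 * (A * Real.log L) ≤ L := by
    filter_upwards [Pool.Agent.T9h55.KQ.small_ev A 1 one_pos, eventually_ge_atTop 1] with L h1 h2
    have h3 : 0 ≤ (A : ℝ) * Real.log L := mul_nonneg (Nat.cast_nonneg _) (Real.log_nonneg h2)
    nlinarith
  filter_upwards [hlog.eventually_ge_atTop 2, hlog.eventually hloglog,
    hit_sum (μ := μ) A K hK e he he0 (fun p => y (Nat.log 2 p)) H ξ hM hH hu, pairs_card,
    eventually_ge_atTop (1000 + 2 ^ (k0 + 4) + 100 * n2)] with n hL hLL hhit hpairs hn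
  intro hev
  have hk0p : 0 < 2 ^ (k0 + 4) := by positivity
  set z : ℕ → ℕ := fun p => y (Nat.log 2 p) with hz
  obtain ⟨ε, hεd⟩ : ∃ ε, ε = e n := ⟨_, rfl⟩
  have hε : 0 < ε := hεd ▸ he0 n
  have hε1 : ε ≤ 1 := hεd ▸ he1 n
  rw [← hεd] at hhit ⊢
  set L : ℝ := Real.log n with hLd
  have hL0 : 0 < L := by linarith
  have hn0 : (0 : ℝ) < n := by exact_mod_cast (by omega : 0 < n)
  have hK1 : (1 : ℝ) ≤ K := by exact_mod_cast hK
  set c0 : ℝ := ε / (1600 * 2 ^ A * (K : ℝ) ^ 2) with hc0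
  have h2A : (1 : ℝ) ≤ 2 ^ A := one_le_pow₀ (by norm_num)
  have hDpos : (0 : ℝ) < 1600 * 2 ^ A * (K : ℝ) ^ 2 := by positivity
  have hc0pos : 0 < c0 := by positivity
  have hc0le : 2 * c0 ≤ 1 := by
    rw [hc0, ← mul_div_assoc, div_le_one hDpos]
    have : (1 : ℝ) ≤ (K : ℝ) ^ 2 := one_le_pow₀ hK1
    nlinarith
  obtain ⟨a0, b0, j1, j2, r1, r2, r3, r4, r5, r6, r7⟩ := range_sel n (by omega)
  set Z1 := y j1 with hZ1
  set Z2 := y j2 with hZ2
  have hZ : Z1 ≤ Z2 := hy r5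
  have hj1 : Nat.log 2 b0 = j1 := r6 b0 (by omega) le_rfl
  have hj2 : Nat.log 2 (n - a0) = j2 := r7 (n - a0) (by omega) le_rfl
  have hZ1pos : 1 ≤ Z1 := by
    apply hk0
    rw [← hj1]
    apply Nat.le_log_of_pow_le (by norm_num)
    have : 2 ^ (k0 + 4) = 16 * 2 ^ k0 := by rw [pow_add]; ring
    omega
  have hZL : (Z2 : ℝ) + 1 ≤ L := by
    have h1 := hn2 (n - a0) (by omega)
    rw [hj2] at h1
    have h2 : (0 : ℝ) < ((n - a0 : ℕ) : ℝ) := by exact_mod_cast (by omega : 0 < n - a0)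
    have h3 : Real.log ((n - a0 : ℕ) : ℝ) ≤ L := Real.log_le_log h2 (by exact_mod_cast Nat.sub_le _ _)
    have h4 : 0 ≤ Real.log ((n - a0 : ℕ) : ℝ) := Real.log_nonneg (by exact_mod_cast (by omega : 1 ≤ n - a0))
    have h5 : ((Nat.factorial Z2 : ℕ) : ℝ) ≤ L ^ A := h1.trans (pow_le_pow_left₀ h4 h3 A)
    have h6 := z_le_log (one_le_pow₀ (by linarith : (1 : ℝ) ≤ L)) h5
    rw [Real.log_pow] at h6
    linarith
  set T : Finset ℕ := pairs n Z1 Z2 a0 b0 with hT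
  have hTcard := hpairs hev a0 b0 Z1 Z2 r1 r2 (by omega) (by
    have : (n : ℝ) + 200 * a0 ≤ 200 * b0 := by exact_mod_cast r4
    linarith) hZ1pos hZ hZL
  have hTmem : ∀ t ∈ T, a0 < t ∧ t ≤ b0 ∧ Nat.Coprime t Z1.factorial ∧ Nat.Coprime (n - t) Z2.factorial := by
    intro t ht
    rw [hT] at ht
    unfold pairs at ht
    rw [mem_filter, mem_Ioc] at ht
    exact ⟨ht.1.1, ht.1.2, ht.2.1, ht.2.2⟩
  set Bl : Finset ℕ := (range (b0 + 1)).filter fun p => p.Prime ∧ 200 * a0 ≤ 200 * p + n with hBl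
  set Bh : Finset ℕ := (range (n - a0 + 1)).filter fun p => p.Prime ∧ 200 * (n - b0) ≤ 200 * p + n with hBh
  have hdis : Disjoint Bl Bh := by
    rw [Finset.disjoint_left]
    intro p h1 h2
    rw [hBl, mem_filter, mem_range] at h1
    rw [hBh, mem_filter, mem_range] at h2
    omega
  set ξ' : ℕ → Ω → ℕ := fun p ω => mv z ξ ω p with hξ'
  have hm' : ∀ j, Measurable (ξ' j) := fun j => (measurable_of_countable (fun h : ℕ => j + (z j).factorial * h)).comp (hm j)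
  have hi' : iIndepFun ξ' μ := hi.comp (fun j h => j + (z j).factorial * h) fun j => measurable_of_countable _
  have hV1 := Pool.Agent.H373R2.T7.Vz_pos Z1
  have hV2 := Pool.Agent.H373R2.T7.Vz_pos Z2
  have hI1 : (Vz Z1)⁻¹ ≤ L := (inv_Vz_le Z1).trans (by
    have : (Z1 : ℝ) ≤ Z2 := by exact_mod_cast hZ
    linarith)
  have hI2 : (Vz Z2)⁻¹ ≤ L := (inv_Vz_le Z2).trans hZL
  have hI1p : 0 < (Vz Z1)⁻¹ := inv_pos.2 hV1
  have hI2p : 0 < (Vz Z2)⁻¹ := inv_pos.2 hV2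
  -- the probabilities
  have hprob : ∀ (V : ℝ), 0 < V → V ≤ L → 0 ≤ 2 * (c0 * V / L) ∧ 2 * (c0 * V / L) ≤ 1 := by
    intro V h1 h2
    constructor
    · positivity
    · have h3 : c0 * V / L ≤ c0 := by
        rw [div_le_iff₀ hL0]
        exact mul_le_mul_of_nonneg_left h2 hc0pos.le
      linarith
  have hform : ∀ V : ℝ, ε * (V / (800 * 2 ^ A * (K : ℝ) ^ 2 * L)) = 2 * (c0 * V / L) := by
    intro V
    rw [hc0]
    have hK2 : (K : ℝ) ≠ 0 := by positivity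
    have hA2 : (2 : ℝ) ^ A ≠ 0 := by positivity
    have hL3 : L ≠ 0 := hL0.ne'
    field_simp
    ring
  set ql : ℝ := c0 * (Vz Z1)⁻¹ / L with hql
  set qh : ℝ := c0 * (Vz Z2)⁻¹ / L with hqh
  have hl : ∀ t ∈ T, ql ≤ μ.real (miss ξ' Bl (fun _ => t))ᶜ := by
    intro t ht
    obtain ⟨t1, t2, t3, t4⟩ := hTmem t ht
    have h1 := hhit t Z1 (by omega) (by omega) (fun p h2 h3 => by
      show y (Nat.log 2 p) = Z1
      rw [r6 p (by omega) (by omega)]) t3 Bl (fun p h2 h3 h4 => by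
      rw [hBl, mem_filter, mem_range]
      exact ⟨by omega, h4, by omega⟩)
    rw [hform] at h1
    obtain ⟨h5, h6⟩ := hprob _ hI1p hI1
    have h7 := hit_low hm' hi' Bl (fun _ => t) h5 h6 h1
    have h8 : 2 * (c0 * (Vz Z1)⁻¹ / L) / 2 = ql := by
      rw [hql]
      ring
    rwa [h8] at h7
  have hh : ∀ t ∈ T, qh ≤ μ.real (miss ξ' Bh (fun _ => n - t))ᶜ := by
    intro t ht
    obtain ⟨t1, t2, t3, t4⟩ := hTmem t ht
    have h1 := hhit (n - t) Z2 (by omega) (by omega) (fun p h2 h3 => by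
      show y (Nat.log 2 p) = Z2
      rw [r7 p (by omega) (by omega)]) t4 Bh (fun p h2 h3 h4 => by
      rw [hBh, mem_filter, mem_range]
      exact ⟨by omega, h4, by omega⟩)
    rw [hform] at h1
    obtain ⟨h5, h6⟩ := hprob _ hI2p hI2
    have h7 := hit_low hm' hi' Bh (fun _ => n - t) h5 h6 h1
    have h8 : 2 * (c0 * (Vz Z2)⁻¹ / L) / 2 = qh := by
      rw [hqh]
      ring
    rwa [h8] at h7
  have hql0 : 0 ≤ ql := by positivity
  have hqh0 : 0 ≤ qh := by positivity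
  have hqh1 : qh ≤ 1 := by
    obtain ⟨h5, h6⟩ := hprob _ hI2p hI2
    linarith
  have key := two_stage hm' hi' Bl Bh hdis T (fun t _ => t) (fun t _ => n - t)
    (fun t _ t' _ hne _ _ => hne) (fun t ht t' ht' hne _ _ h => by
      have h1 := hTmem t ht
      have h2 := hTmem t' ht'
      omega) hql0 hqh0 hl hh
  -- the size
  have hsize : c0 ^ 2 / 1000 * (n / L ^ 2) ≤ #T * ql * qh := by
    have e1 : (#T : ℝ) * ql * qh = c0 ^ 2 / L ^ 2 * ((Vz Z1)⁻¹ * (Vz Z2)⁻¹ * #T) := by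
      rw [hql, hqh]
      ring
    rw [e1]
    calc c0 ^ 2 / 1000 * (n / L ^ 2) = c0 ^ 2 / L ^ 2 * (n / 1000) := by ring
      _ ≤ _ := mul_le_mul_of_nonneg_left hTcard (by positivity)
  have hD2 : ε ^ 2 / (4000 * (1600 * 2 ^ A * (K : ℝ) ^ 2) ^ 2) = c0 ^ 2 / 4000 := by
    rw [hc0]
    field_simp
  have hD3 : ε ^ 2 / (16000 * (1600 * 2 ^ A * (K : ℝ) ^ 2) ^ 2) = c0 ^ 2 / 16000 := by
    rw [hc0]
    field_simp
  rw [hD2, hD3]
  have hsub : {ω | (#(reps z ξ n ω) : ℝ) ≤ c0 ^ 2 / 4000 * (n / L ^ 2)} ⊆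
      {ω | (#(hits ξ' Bh (hits ξ' Bl T (fun t _ => t) ω) (fun t _ => n - t) ω) : ℝ) ≤ #T * ql * qh / 4} := by
    intro ω hω
    simp only [Set.mem_ofPred_eq] at hω ⊢
    have h1 : hits ξ' Bh (hits ξ' Bl T (fun t _ => t) ω) (fun t _ => n - t) ω ⊆ reps z ξ n ω := by
      intro t ht
      unfold hits at ht
      rw [mem_filter, mem_filter] at ht
      obtain ⟨⟨h2, h3⟩, h4⟩ := ht
      obtain ⟨t1, t2, t3, t4⟩ := hTmem t h2
      unfold miss at h3 h4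
      simp only [Set.mem_ofPred_eq, not_forall, not_not, exists_prop] at h3 h4
      obtain ⟨p, h5, h6⟩ := h3
      obtain ⟨p', h7, h8⟩ := h4
      unfold reps
      rw [mem_filter, mem_range]
      rw [hBl, mem_filter] at h5
      rw [hBh, mem_filter] at h7
      exact ⟨by omega, ⟨p, h5.2.1, h6.symm⟩, ⟨p', h7.2.1, h8.symm⟩⟩
    have h2 : (#(hits ξ' Bh (hits ξ' Bl T (fun t _ => t) ω) (fun t _ => n - t) ω) : ℝ) ≤ #(reps z ξ n ω) := by
      exact_mod_cast card_le_card h1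
    linarith
  have h1 : #T * ql * qh ≤ #T * ql := mul_le_of_le_one_right (by positivity) hqh1
  calc μ.real {ω | (#(reps z ξ n ω) : ℝ) ≤ c0 ^ 2 / 4000 * (n / L ^ 2)} ≤ _ := measureReal_mono hsub (measure_ne_top μ _)
    _ ≤ Real.exp (-(#T * ql / 8)) + Real.exp (-(#T * ql * qh / 16)) := key
    _ ≤ Real.exp (-(c0 ^ 2 / 16000 * (n / L ^ 2))) + Real.exp (-(c0 ^ 2 / 16000 * (n / L ^ 2))) := by
        have h0 : 0 ≤ c0 ^ 2 / 1000 * (n / L ^ 2) := by positivity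
        apply add_le_add <;> apply Real.exp_le_exp.2 <;> linarith
    _ = _ := by ring

end Pool.Agent.T9h55.KT
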