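import Pool.Agent.T9h55.KT.Bins

/-! Independent balls which hit targets (helper55). -/

set_option autoImplicit false

namespace Pool.Agent.T9h55.KT

open Finset MeasureTheory ProbabilityTheory

variable {Ω : Type*} [MeasurableSpace Ω] {μ : Measure Ω}

/-- no ball of `B` has its value in `u` -/
def miss (ξ : ℕ → Ω → ℕ) (B : Finset ℕ) (u : ℕ → ℕ) : Set Ω := {ω | ∀ j ∈ B, ξ j ω ≠ u j}

/-- the probability of the value -/
noncomputable def pr (μ : Measure Ω) (ξ : ℕ → Ω → ℕ) (j h : ℕ) : ℝ := μ.real {ω | ξ j ω = h}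

lemma all_real [IsProbabilityMeasure μ] {ξ : ℕ → Ω → ℕ} (hi : iIndepFun ξ μ) (B : Finset ℕ) (C : ℕ → Set ℕ) :
    μ.real {ω | ∀ j ∈ B, ξ j ω ∈ C j} = ∏ j ∈ B, μ.real {ω | ξ j ω ∈ C j} := by
  have h1 := hi.measure_inter_preimage_eq_mul B (sets := C) (fun j _ => MeasurableSet.of_discrete)
  have e1 : {ω | ∀ j ∈ B, ξ j ω ∈ C j} = ⋂ j ∈ B, ξ j ⁻¹' C j := by
    ext ω
    simp
  unfold Measure.real
  rw [e1, h1, ENNReal.toReal_prod]
  rfl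

lemma eq_meas {ξ : ℕ → Ω → ℕ} (hm : ∀ j, Measurable (ξ j)) (j h : ℕ) : MeasurableSet {ω | ξ j ω = h} :=
  hm j (measurableSet_singleton h)

lemma ne_real [IsProbabilityMeasure μ] {ξ : ℕ → Ω → ℕ} (hm : ∀ j, Measurable (ξ j)) (j h : ℕ) :
    μ.real {ω | ξ j ω ∈ ({h}ᶜ : Set ℕ)} = 1 - pr μ ξ j h := by
  have e : {ω | ξ j ω ∈ ({h}ᶜ : Set ℕ)} = {ω | ξ j ω = h}ᶜ := by
    ext ω
    simp
  rw [e, probReal_compl_eq_one_sub (eq_meas hm j h)]
  rfl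

lemma ne2_real [IsProbabilityMeasure μ] {ξ : ℕ → Ω → ℕ} (hm : ∀ j, Measurable (ξ j)) (j h h' : ℕ) (hne : h ≠ h') :
    μ.real {ω | ξ j ω ∈ ({h, h'}ᶜ : Set ℕ)} = 1 - pr μ ξ j h - pr μ ξ j h' := by
  have e : {ω | ξ j ω ∈ ({h, h'}ᶜ : Set ℕ)} = ({ω | ξ j ω = h} ∪ {ω | ξ j ω = h'})ᶜ := by
    ext ω
    simp
  rw [e, probReal_compl_eq_one_sub ((eq_meas hm j h).union (eq_meas hm j h')), measureReal_union _ (eq_meas hm j h')]
  · unfold pr
    ring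
  · rw [Set.disjoint_left]
    intro ω h1 h2
    exact hne (h1.symm.trans h2)

lemma miss_real [IsProbabilityMeasure μ] {ξ : ℕ → Ω → ℕ} (hm : ∀ j, Measurable (ξ j)) (hi : iIndepFun ξ μ) (B : Finset ℕ)
    (u : ℕ → ℕ) : μ.real (miss ξ B u) = ∏ j ∈ B, (1 - pr μ ξ j (u j)) := by
  have h := all_real hi B (fun j => ({u j}ᶜ : Set ℕ))
  have e : miss ξ B u = {ω | ∀ j ∈ B, ξ j ω ∈ ({u j}ᶜ : Set ℕ)} := by
    ext ω
    simp [miss]
  rw [e, h]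
  exact Finset.prod_congr rfl fun j _ => ne_real hm j _

lemma miss2_real [IsProbabilityMeasure μ] {ξ : ℕ → Ω → ℕ} (hm : ∀ j, Measurable (ξ j)) (hi : iIndepFun ξ μ) (B : Finset ℕ)
    (u u' : ℕ → ℕ) (hne : ∀ j ∈ B, u j ≠ u' j) :
    μ.real (miss ξ B u ∩ miss ξ B u') ≤ μ.real (miss ξ B u) * μ.real (miss ξ B u') := by
  have h := all_real hi B (fun j => ({u j, u' j}ᶜ : Set ℕ))
  have e : miss ξ B u ∩ miss ξ B u' = {ω | ∀ j ∈ B, ξ j ω ∈ ({u j, u' j}ᶜ : Set ℕ)} := by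
    ext ω
    simp only [miss, Set.mem_inter_iff, Set.mem_ofPred_eq, Set.mem_compl_iff, Set.mem_insert_iff, Set.mem_singleton_iff, not_or]
    constructor
    · rintro ⟨h1, h2⟩ j hj
      exact ⟨h1 j hj, h2 j hj⟩
    · intro h1
      exact ⟨fun j hj => (h1 j hj).1, fun j hj => (h1 j hj).2⟩
  rw [e, h, miss_real hm hi, miss_real hm hi, ← Finset.prod_mul_distrib]
  refine Finset.prod_le_prod (fun j _ => measureReal_nonneg) fun j hj => ?_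
  rw [ne2_real hm j _ _ (hne j hj)]
  have h1 : 0 ≤ pr μ ξ j (u j) := measureReal_nonneg
  have h2 : 0 ≤ pr μ ξ j (u' j) := measureReal_nonneg
  nlinarith [mul_nonneg h1 h2]

lemma miss_meas {ξ : ℕ → Ω → ℕ} (hm : ∀ j, Measurable (ξ j)) (B : Finset ℕ) (u : ℕ → ℕ) : MeasurableSet (miss ξ B u) := by
  have e : miss ξ B u = ⋂ j ∈ B, {ω | ξ j ω = u j}ᶜ := by
    ext ω
    simp [miss]
  rw [e]
  exact Finset.measurableSet_biInter _ fun j _ => (eq_meas hm j _).compl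

lemma hit_neg [IsProbabilityMeasure μ] {ξ : ℕ → Ω → ℕ} (hm : ∀ j, Measurable (ξ j)) (hi : iIndepFun ξ μ) (B : Finset ℕ)
    (u u' : ℕ → ℕ) (hne : ∀ j ∈ B, u j ≠ u' j) :
    μ.real ((miss ξ B u)ᶜ ∩ (miss ξ B u')ᶜ) ≤ μ.real (miss ξ B u)ᶜ * μ.real (miss ξ B u')ᶜ := by
  have h1 := miss_meas hm B u
  have h2 := miss_meas hm B u'
  rw [← Set.compl_union, probReal_compl_eq_one_sub (h1.union h2), probReal_compl_eq_one_sub h1, probReal_compl_eq_one_sub h2]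
  have h3 := measureReal_union_add_inter (μ := μ) (s := miss ξ B u) h2
  have h4 := miss2_real hm hi B u u' hne
  nlinarith

lemma hit_low [IsProbabilityMeasure μ] {ξ : ℕ → Ω → ℕ} (hm : ∀ j, Measurable (ξ j)) (hi : iIndepFun ξ μ) (B : Finset ℕ)
    (u : ℕ → ℕ) {σ : ℝ} (h0 : 0 ≤ σ) (h1 : σ ≤ 1) (hσ : σ ≤ ∑ j ∈ B, pr μ ξ j (u j)) : σ / 2 ≤ μ.real (miss ξ B u)ᶜ := by
  rw [probReal_compl_eq_one_sub (miss_meas hm B u), miss_real hm hi]
  have h2 : ∏ j ∈ B, (1 - pr μ ξ j (u j)) ≤ Real.exp (-σ) := by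
    calc ∏ j ∈ B, (1 - pr μ ξ j (u j)) ≤ ∏ j ∈ B, Real.exp (-pr μ ξ j (u j)) := by
          refine Finset.prod_le_prod (fun j _ => ?_) fun j _ => ?_
          · rw [sub_nonneg]
            exact measureReal_le_one
          · have := Real.add_one_le_exp (-pr μ ξ j (u j))
            linarith
      _ = Real.exp (-∑ j ∈ B, pr μ ξ j (u j)) := by
          rw [← Real.exp_sum, Finset.sum_neg_distrib]
      _ ≤ Real.exp (-σ) := Real.exp_le_exp.2 (by linarith)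
  have h3 : Real.exp (-σ) ≤ 1 - σ / 2 := by
    have h4 := Real.add_one_le_exp σ
    rw [Real.exp_neg, inv_le_comm₀ (Real.exp_pos _) (by linarith)]
    refine le_trans ?_ h4
    rw [inv_le_comm₀ (by linarith) (by linarith), inv_eq_one_div, div_le_iff₀ (by linarith)]
    nlinarith
  linarith

/-- the event that all targets of `x` are hit -/
def full (ξ : ℕ → Ω → ℕ) (S : Finset ℕ) (B : ℕ → Finset ℕ) (v : ℕ → ℕ → ℕ → ℕ) (x : ℕ) : Set Ω :=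
  ⋂ y ∈ S, (miss ξ (B y) (v x y))ᶜ

lemma full_meas {ξ : ℕ → Ω → ℕ} (hm : ∀ j, Measurable (ξ j)) (S : Finset ℕ) (B : ℕ → Finset ℕ) (v : ℕ → ℕ → ℕ → ℕ)
    (x : ℕ) : MeasurableSet (full ξ S B v x) :=
  Finset.measurableSet_biInter _ fun y _ => (miss_meas hm _ _).compl

lemma full_real [IsProbabilityMeasure μ] {ξ : ℕ → Ω → ℕ} (hm : ∀ j, Measurable (ξ j)) (hi : iIndepFun ξ μ) (S : Finset ℕ)
    (B : ℕ → Finset ℕ) (hB : (S : Set ℕ).PairwiseDisjoint B) (v : ℕ → ℕ → ℕ → ℕ) (x : ℕ) :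
    μ.real (full ξ S B v x) = ∏ y ∈ S, μ.real (miss ξ (B y) (v x y))ᶜ := by
  have h := indep_colors hm hi S B hB (fun y => {g | ∀ j : B y, g j ≠ v x y j}ᶜ)
  have e : ∀ y, (fun ω (j : B y) => ξ j ω) ⁻¹' ({g | ∀ j : B y, g j ≠ v x y j}ᶜ) = (miss ξ (B y) (v x y))ᶜ := by
    intro y
    ext ω
    simp [miss]
  simp only [e] at h
  exact h

lemma full2_real [IsProbabilityMeasure μ] {ξ : ℕ → Ω → ℕ} (hm : ∀ j, Measurable (ξ j)) (hi : iIndepFun ξ μ) (S : Finset ℕ)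
    (B : ℕ → Finset ℕ) (hB : (S : Set ℕ).PairwiseDisjoint B) (v : ℕ → ℕ → ℕ → ℕ) (x x' : ℕ)
    (hne : ∀ y ∈ S, ∀ j ∈ B y, v x y j ≠ v x' y j) :
    μ.real (full ξ S B v x ∩ full ξ S B v x') ≤ μ.real (full ξ S B v x) * μ.real (full ξ S B v x') := by
  have h := indep_colors hm hi S B hB
    (fun y => {g | ∀ j : B y, g j ≠ v x y j}ᶜ ∩ {g | ∀ j : B y, g j ≠ v x' y j}ᶜ)
  have e : ∀ y, (fun ω (j : B y) => ξ j ω) ⁻¹' ({g | ∀ j : B y, g j ≠ v x y j}ᶜ ∩ {g | ∀ j : B y, g j ≠ v x' y j}ᶜ) =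
      (miss ξ (B y) (v x y))ᶜ ∩ (miss ξ (B y) (v x' y))ᶜ := by
    intro y
    ext ω
    simp [miss]
  simp only [e] at h
  have e2 : full ξ S B v x ∩ full ξ S B v x' = ⋂ y ∈ S, (miss ξ (B y) (v x y))ᶜ ∩ (miss ξ (B y) (v x' y))ᶜ := by
    ext ω
    simp only [full, Set.mem_inter_iff, Set.mem_iInter]
    constructor
    · rintro ⟨h1, h2⟩ y hy
      exact ⟨h1 y hy, h2 y hy⟩
    · intro h1
      exact ⟨fun y hy => (h1 y hy).1, fun y hy => (h1 y hy).2⟩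
  rw [e2, h, full_real hm hi S B hB, full_real hm hi S B hB, ← Finset.prod_mul_distrib]
  exact Finset.prod_le_prod (fun y _ => measureReal_nonneg) fun y hy => hit_neg hm hi _ _ _ (hne y hy)

open Classical in
/-- **Balls and targets.** -/
theorem bins [IsProbabilityMeasure μ] {ξ : ℕ → Ω → ℕ} (hm : ∀ j, Measurable (ξ j)) (hi : iIndepFun ξ μ) (S : Finset ℕ)
    (B : ℕ → Finset ℕ) (hB : (S : Set ℕ).PairwiseDisjoint B) (T : Finset ℕ) (hT : T.Nonempty) (v : ℕ → ℕ → ℕ → ℕ)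
    (hne : ∀ x ∈ T, ∀ x' ∈ T, x ≠ x' → ∀ y ∈ S, ∀ j ∈ B y, v x y j ≠ v x' y j) {σ : ℝ} (h0 : 0 < σ) (h1 : σ ≤ 1)
    (hσ : ∀ x ∈ T, ∀ y ∈ S, σ ≤ ∑ j ∈ B y, pr μ ξ j (v x y j)) :
    μ.real {ω | (#(T.filter fun x => ω ∈ full ξ S B v x) : ℝ) ≤ #T * (σ / 2) ^ #S / 2} ≤ 4 / (#T * (σ / 2) ^ #S) := by
  set e : ℝ := ∑ x ∈ T, μ.real (full ξ S B v x) with he
  set e0 : ℝ := #T * (σ / 2) ^ #S with he0
  have hT0 : (0 : ℝ) < #T := by exact_mod_cast hT.card_pos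
  have he00 : 0 < e0 := by positivity
  have hle : e0 ≤ e := by
    have h2 : ∀ x ∈ T, (σ / 2) ^ #S ≤ μ.real (full ξ S B v x) := by
      intro x hx
      rw [full_real hm hi S B hB, ← Finset.prod_const]
      exact Finset.prod_le_prod (fun _ _ => by positivity) fun y hy => hit_low hm hi _ _ h0.le h1 (hσ x hx y hy)
    have h3 := Finset.sum_le_sum h2
    rwa [Finset.sum_const, nsmul_eq_mul] at h3
  have hepos : 0 < e := lt_of_lt_of_le he00 hle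
  have h2 := second_moment T (full ξ S B v) (fun x => full_meas hm S B v x)
    (fun x hx x' hx' hxx => full2_real hm hi S B hB v x x' (hne x hx x' hx' hxx)) hepos
  have h3 : μ.real {ω | (#(T.filter fun x => ω ∈ full ξ S B v x) : ℝ) ≤ e0 / 2} ≤
      μ.real {ω | (#(T.filter fun x => ω ∈ full ξ S B v x) : ℝ) ≤ e / 2} := by
    apply measureReal_mono _ (measure_ne_top μ _)
    intro ω hω
    simp only [Set.mem_ofPred_eq] at hω ⊢
    linarith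
  refine h3.trans (h2.trans ?_)
  exact div_le_div_of_nonneg_left (by norm_num) he00 hle

end Pool.Agent.T9h55.KT
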