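import Pool.Agent.T9h55.KT.Core
import Pool.Agent.T9h55.RM.LawB

/-! The theorem of Hardy and Littlewood type for almost all perturbations of the primes (helper55). -/

set_option autoImplicit false

namespace Pool.Agent.T9h55.KT

open Finset Filter Topology MeasureTheory ProbabilityTheory

variable {Ω : Type*} [MeasurableSpace Ω] {μ : Measure Ω}

lemma small_seq (G : ℕ) : ∀ᶠ n : ℕ in atTop, 4 * Real.log ((2 ^ n : ℕ) : ℝ) ^ G / ((2 ^ n : ℕ) : ℝ) ≤ 1 * (1 / (n : ℝ) ^ 2) := by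
  have h1 : Tendsto (fun n : ℕ => (2 ^ n : ℕ)) atTop atTop := tendsto_pow_atTop_atTop_of_one_lt (by norm_num : (1 : ℕ) < 2)
  have h2 := h1.eventually (pow_log_le 16 (G + 2))
  filter_upwards [h2, eventually_ge_atTop 1] with n h3 h4
  have hn0 : (0 : ℝ) < n := by exact_mod_cast h4
  have hX : (0 : ℝ) < ((2 ^ n : ℕ) : ℝ) := by positivity
  have hlog : Real.log ((2 ^ n : ℕ) : ℝ) = n * Real.log 2 := by
    push_cast
    rw [Real.log_pow]
  have hl2 := Real.log_two_gt_d9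
  have h5 : (n : ℝ) ≤ 2 * Real.log ((2 ^ n : ℕ) : ℝ) := by
    rw [hlog]
    nlinarith
  set L : ℝ := Real.log ((2 ^ n : ℕ) : ℝ) with hL
  have hL0 : 0 < L := by linarith
  rw [one_mul, div_le_div_iff₀ hX (by positivity), one_mul]
  have h6 : (n : ℝ) ^ 2 ≤ (2 * L) ^ 2 := pow_le_pow_left₀ hn0.le h5 2
  calc 4 * L ^ G * (n : ℝ) ^ 2 ≤ 4 * L ^ G * (2 * L) ^ 2 := mul_le_mul_of_nonneg_left h6 (by positivity)
    _ = 16 * L ^ (G + 2) := by ring
    _ ≤ _ := h3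

open Classical in
/-- the number of the `x ≤ X` with the full pattern -/
noncomputable def goodUpTo (z : ℕ → ℕ) (ξ : ℕ → Ω → ℕ) (k m X : ℕ) (ω : Ω) : Finset ℕ :=
  (Icc 1 X).filter fun x => x ≡ m [MOD primorial k] ∧ ∀ y ∈ sv k m, x + y ∈ moved z ξ ω

theorem almost [IsProbabilityMeasure μ] (A k m : ℕ) (z H : ℕ → ℕ) (ξ : ℕ → Ω → ℕ) (hz : Monotone z)
    (hk : Tendsto z atTop atTop)
    (hM : ∀ᶠ n : ℕ in atTop, (((z n).factorial : ℕ) : ℝ) ≤ Real.log n ^ A)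
    (hH : ∀ᶠ n : ℕ in atTop, (n : ℝ) / Real.log n ^ A ≤ ((z n).factorial : ℝ) * H n ∧
      ((z n).factorial : ℝ) * H n ≤ (n : ℝ) * Real.log n ^ A)
    (hm : ∀ j, Measurable (ξ j)) (hi : iIndepFun ξ μ)
    (hu : ∀ j, 1 ≤ j → ∀ h < H j, μ.real {ω | ξ j ω = h} = 1 / (H j : ℝ)) :
    ∀ᵐ ω ∂μ, ∀ᶠ X : ℕ in atTop, (X : ℝ) / Real.log X ^ (2 * A + 4 + (3 * A + 4) * k) ≤ #(goodUpTo z ξ k m X ω) := by
  classical
  have hpow : Tendsto (fun n : ℕ => (2 ^ n : ℕ)) atTop atTop := tendsto_pow_atTop_atTop_of_one_lt (by norm_num : (1 : ℕ) < 2)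
  have hcore := hpow.eventually (core (μ := μ) A k z H ξ hz (hk.eventually_ge_atTop k) hM hH hm hi hu)
  set G : ℕ := 2 * A + 3 + (3 * A + 4) * k with hG
  have hG1 : 2 * A + 4 + (3 * A + 4) * k = G + 1 := by omega
  rw [hG1]
  have hbc := Pool.Agent.T9h55.RM.bc (μ := μ) (B := 1)
    (A := fun n => {ω | (#(good z ξ k m (2 ^ n) ω) : ℝ) < ((2 ^ n : ℕ) : ℝ) / (2 * Real.log ((2 ^ n : ℕ) : ℝ) ^ G)}) (by
      filter_upwards [hcore, small_seq G] with n h1 h2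
      exact (h1 m).trans h2)
  filter_upwards [hbc] with ω hω
  obtain ⟨n0, hn0⟩ := eventually_atTop.1 hω
  have hlog : Tendsto (fun k : ℕ => Real.log (k : ℝ)) atTop atTop := Real.tendsto_log_atTop.comp tendsto_natCast_atTop_atTop
  filter_upwards [eventually_ge_atTop (2 ^ (n0 + 1) + 2), hlog.eventually_ge_atTop 8] with X hX hL8
  have hXpos : 2 ≤ X := le_trans (Nat.le_add_left 2 _) hX
  -- choose the power of two
  obtain ⟨n, hn⟩ : ∃ n, n = Nat.log 2 X - 1 := ⟨_, rfl⟩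
  have hlogX : n0 + 1 ≤ Nat.log 2 X := Nat.le_log_of_pow_le (by norm_num) (by omega)
  have hn1 : n0 ≤ n := by omega
  have hn2 : 2 ^ (n + 1) ≤ X := by
    have : n + 1 = Nat.log 2 X := by omega
    rw [this]
    exact Nat.pow_log_le_self 2 (by omega)
  have hn3 : X < 2 ^ (n + 2) := by
    have : n + 2 = Nat.log 2 X + 1 := by omega
    rw [this]
    exact Nat.lt_pow_succ_log_self (by norm_num) X
  have h1 := hn0 n hn1
  simp only [Set.mem_ofPred_eq, not_lt] at h1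
  have hsub : good z ξ k m (2 ^ n) ω ⊆ goodUpTo z ξ k m X ω := by
    intro x hx
    unfold good at hx
    unfold goodUpTo
    rw [mem_filter, mem_Ioc] at hx
    rw [mem_filter, mem_Icc]
    have h2 : 2 * 2 ^ n = 2 ^ (n + 1) := by ring
    exact ⟨⟨by omega, by omega⟩, hx.2⟩
  have h2 : (#(good z ξ k m (2 ^ n) ω) : ℝ) ≤ #(goodUpTo z ξ k m X ω) := by exact_mod_cast card_le_card hsub
  refine le_trans ?_ (h1.trans h2)
  set L : ℝ := Real.log X with hLd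
  have hL0 : 0 < L := by linarith
  have hX2 : (X : ℝ) ≤ 4 * ((2 ^ n : ℕ) : ℝ) := by
    have h3 : X ≤ 4 * 2 ^ n := by
      have : 2 ^ (n + 2) = 4 * 2 ^ n := by ring
      omega
    exact_mod_cast h3
  have hX1 : ((2 ^ n : ℕ) : ℝ) ≤ X := by
    have h3 : 2 ^ n ≤ X := by
      have : 2 ^ (n + 1) = 2 * 2 ^ n := by ring
      omega
    exact_mod_cast h3
  have hX0 : (0 : ℝ) < X := by exact_mod_cast (by omega : 0 < X)
  have hp0 : (0 : ℝ) < ((2 ^ n : ℕ) : ℝ) := by positivity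
  have hl0 : 0 < Real.log ((2 ^ n : ℕ) : ℝ) := by
    apply Real.log_pos
    have h3 : 4 * 2 ≤ 4 * 2 ^ n := by
      by_contra hc
      have h4 : 4 * 2 ^ n < 8 := by omega
      have h5 : X < 8 := by
        have : 2 ^ (n + 2) = 4 * 2 ^ n := by ring
        omega
      have h6 : (X : ℝ) < 8 := by exact_mod_cast h5
      have h7 := Real.log_le_sub_one_of_pos hX0
      linarith
    have h8 : 2 ≤ 2 ^ n := by omega
    have h9 : (2 : ℝ) ≤ ((2 ^ n : ℕ) : ℝ) := by exact_mod_cast h8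
    linarith
  have hlle : Real.log ((2 ^ n : ℕ) : ℝ) ≤ L := Real.log_le_log hp0 hX1
  rw [div_le_div_iff₀ (by positivity) (by positivity)]
  have h3 : 2 * Real.log ((2 ^ n : ℕ) : ℝ) ^ G ≤ 2 * L ^ G :=
    mul_le_mul_of_nonneg_left (pow_le_pow_left₀ hl0.le hlle G) (by norm_num)
  calc (X : ℝ) * (2 * Real.log ((2 ^ n : ℕ) : ℝ) ^ G) ≤ (4 * ((2 ^ n : ℕ) : ℝ)) * (2 * L ^ G) :=
        mul_le_mul hX2 h3 (by positivity) (by positivity)
    _ = ((2 ^ n : ℕ) : ℝ) * (8 * L ^ G) := by ring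
    _ ≤ ((2 ^ n : ℕ) : ℝ) * (L * L ^ G) := by
        apply mul_le_mul_of_nonneg_left _ hp0.le
        exact mul_le_mul_of_nonneg_right hL8 (by positivity)
    _ = ((2 ^ n : ℕ) : ℝ) * L ^ (G + 1) := by ring

omit [MeasurableSpace Ω] in
/-- the moved primes have no small prime factors -/
theorem no_small (k : ℕ) (z : ℕ → ℕ) (ξ : ℕ → Ω → ℕ) (hz : Tendsto z atTop atTop) (ω : Ω) :
    ∀ᶠ n : ℕ in atTop, n ∈ moved z ξ ω → Nat.Coprime n (primorial k) := by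
  obtain ⟨p0, hp0⟩ := eventually_atTop.1 (hz.eventually_ge_atTop k)
  filter_upwards [eventually_gt_atTop (∑ p ∈ range (p0 + k + 1), mv z ξ ω p)] with n hn hmem
  obtain ⟨p, hp, hpn⟩ := hmem
  have hbig : p0 + k + 1 ≤ p := by
    by_contra hc
    have h1 : mv z ξ ω p ≤ ∑ p ∈ range (p0 + k + 1), mv z ξ ω p :=
      Finset.single_le_sum (f := fun p => mv z ξ ω p) (fun _ _ => Nat.zero_le _) (mem_range.2 (by omega))
    omega
  rw [Nat.coprime_iff_gcd_eq_one]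
  by_contra hne
  obtain ⟨q, hq, hd⟩ := Nat.exists_prime_and_dvd hne
  have hq1 : q ∣ n := hd.trans (Nat.gcd_dvd_left _ _)
  have hq2 : q ≤ k := (hq.dvd_primorial_iff).1 (hd.trans (Nat.gcd_dvd_right _ _))
  have hq3 : q ∣ (z p).factorial := (hq.dvd_factorial).2 (hq2.trans (hp0 p (by omega)))
  rw [hpn] at hq1
  unfold mv at hq1
  have hq4 : q ∣ p := (Nat.dvd_add_left (hq3.mul_right _)).1 hq1
  have := (Nat.prime_dvd_prime_iff_eq hq hp).1 hq4
  omega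

end Pool.Agent.T9h55.KT
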