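import Pool.Agent.T9h55.KT.Gold
import Pool.Agent.T9h55.RM.LawB

/-! Sums of a prime and a moved prime (helper55). -/

set_option autoImplicit false

namespace Pool.Agent.T9h55.KT

open Finset Filter Topology MeasureTheory ProbabilityTheory
open Pool.Agent.H373R2.T7 (pz Vz mem_pz Vz_pos)
open Pool.Agent.T9h55.KQ (inv_Vz_le z_le_log rt_fact)

variable {Ω : Type*} [MeasurableSpace Ω] {μ : Measure Ω}

/-- the primes `p` such that `n - p` has no small prime factor -/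
def ppairs (n Z a0 b0 : ℕ) : Finset ℕ := (Ioc a0 b0).filter fun p => p.Prime ∧ Nat.Coprime (n - p) Z.factorial

lemma fiber_le (S : Finset ℕ) (a0 b0 M c : ℕ) (hM : 1 ≤ M) (hS : S ⊆ Ioc a0 b0) :
    #(S.filter fun a => a % M = c) ≤ (b0 - a0) / M + 1 := by
  have h : #(S.filter fun a => a % M = c) ≤ #(range ((b0 - a0) / M + 1)) := by
    apply Finset.card_le_card_of_injOn (fun a => (a - a0 - 1) / M)
    · intro a ha
      rw [mem_coe, mem_filter] at ha
      have h1 := hS ha.1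
      rw [mem_Ioc] at h1
      rw [mem_coe, mem_range]
      have : (a - a0 - 1) / M ≤ (b0 - a0) / M := Nat.div_le_div_right (by omega)
      beta_reduce
      omega
    · intro a ha a' ha' heq
      rw [mem_coe, mem_filter] at ha ha'
      have h1 := hS ha.1
      have h2 := hS ha'.1
      rw [mem_Ioc] at h1 h2
      beta_reduce at heq
      have key : ∀ x x' : ℕ, a0 < x → x < x' → x % M = x' % M → (x - a0 - 1) / M < (x' - a0 - 1) / M := by
        intro x x' h3 h4 h5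
        have h6 : M ∣ x' - x := (Nat.modEq_iff_dvd' h4.le).1 h5
        have h7 : M ≤ x' - x := Nat.le_of_dvd (by omega) h6
        have h8 : (x - a0 - 1) + M ≤ x' - a0 - 1 := by omega
        have h9 := Nat.div_le_div_right (c := M) h8
        rw [Nat.add_div_right _ (by omega)] at h9
        omega
      rcases lt_trichotomy a a' with h3 | h3 | h3
      · have := key a a' h1.1 h3 (ha.2.trans ha'.2.symm)
        omega
      · exact h3
      · have := key a' a h2.1 h3 (ha'.2.trans ha.2.symm)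
        omega
  rwa [card_range] at h

theorem ppairs_card (A : ℕ) : ∀ᶠ n : ℕ in atTop, Even n → ∀ a0 b0 Z : ℕ, n ≤ 10 * a0 → a0 ≤ b0 → b0 ≤ n →
    (n : ℝ) / 200 ≤ (b0 : ℝ) - a0 → 1 ≤ Z → (Z : ℝ) + 1 ≤ Real.log n → (Z.factorial : ℝ) ≤ Real.log n ^ A →
    (n : ℝ) / (4000 * Real.log n) ≤ (Vz Z)⁻¹ * #(ppairs n Z a0 b0) := by
  classical
  have hlog : Tendsto (fun k : ℕ => Real.log (k : ℝ)) atTop atTop := Real.tendsto_log_atTop.comp tendsto_natCast_atTop_atTop
  filter_upwards [hlog.eventually_ge_atTop 200, pairs_card, primes_ap' A 1, pow_log_le 200 A, eventually_ge_atTop 1,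
    pow_log_le 20 1] with n hL hp hap hgrow hn1 hg1
  intro hev a0 b0 Z ha10 hab hbn hlen hZ hZL hZA
  set L : ℝ := Real.log n with hLd
  have hL0 : 0 < L := by linarith
  have hn0 : (0 : ℝ) < n := by exact_mod_cast hn1
  set M : ℕ := Z.factorial with hMd
  have hM1 : 1 ≤ M := Nat.factorial_pos _
  have hM0 : (0 : ℝ) < M := by exact_mod_cast hM1
  have hφ0 : (0 : ℝ) < Nat.totient M := by exact_mod_cast Nat.totient_pos.2 hM1
  have h1 := hp hev a0 b0 Z Z ha10 hab hbn hlen hZ le_rfl hZL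
  set S : Finset ℕ := pairs n Z Z a0 b0 with hS
  set T : Finset ℕ := ppairs n Z a0 b0 with hT
  have hSsub : S ⊆ Ioc a0 b0 := filter_subset _ _
  set C : Finset ℕ := S.image (fun a => a % M) with hC
  have hlen0 : 0 < (b0 : ℝ) - a0 := lt_of_lt_of_le (by positivity) hlen
  have hlenN : ((b0 - a0 : ℕ) : ℝ) = (b0 : ℝ) - a0 := Nat.cast_sub hab
  -- the number of the classes
  have hSC : #S ≤ ((b0 - a0) / M + 1) * #C := by
    apply Finset.card_le_mul_card_image
    intro c _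
    exact fiber_le S a0 b0 M c hM1 hSsub
  have hdiv : (((b0 - a0) / M + 1 : ℕ) : ℝ) ≤ 2 * (((b0 : ℝ) - a0) / M) := by
    have h2 : (((b0 - a0) / M : ℕ) : ℝ) ≤ ((b0 - a0 : ℕ) : ℝ) / M := Nat.cast_div_le
    rw [hlenN] at h2
    have h3 : 1 ≤ ((b0 : ℝ) - a0) / M := by
      rw [le_div_iff₀ hM0, one_mul]
      linarith
    push_cast
    linarith
  have hSC' : (#S : ℝ) ≤ 2 * (((b0 : ℝ) - a0) / M) * #C := by
    have h2 : (#S : ℝ) ≤ (((b0 - a0) / M + 1 : ℕ) : ℝ) * #C := by exact_mod_cast hSC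
    exact h2.trans (mul_le_mul_of_nonneg_right hdiv (Nat.cast_nonneg _))
  -- the size of `Z`
  have hZn : Z < a0 := by
    have h2 : (Z : ℝ) < a0 := by
      have h3 : (n : ℝ) ≤ 10 * a0 := by exact_mod_cast ha10
      have h4 : 20 * L ≤ n := by simpa using hg1
      linarith
    exact_mod_cast h2
  -- the primes
  have hTC : #T = ∑ c ∈ C, #(T.filter fun p => p % M = c) := by
    apply Finset.card_eq_sum_card_fiberwise
    intro p hp
    rw [mem_coe] at hp ⊢
    rw [hT] at hp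
    unfold ppairs at hp
    rw [mem_filter, mem_Ioc] at hp
    rw [hC, mem_image]
    refine ⟨p, ?_, rfl⟩
    rw [hS]
    unfold pairs
    rw [mem_filter, mem_Ioc]
    refine ⟨hp.1, ?_, hp.2.2⟩
    rw [coprime_fact]
    intro q hq hd
    rw [mem_pz] at hq
    have := (Nat.prime_dvd_prime_iff_eq hq.2 hp.2.1).1 hd
    omega
  have hcl : ∀ c ∈ C, ((b0 : ℝ) - a0) / (2 * Nat.totient M * L) ≤ (#(T.filter fun p => p % M = c) : ℝ) := by
    intro c hc
    rw [hC, mem_image] at hc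
    obtain ⟨a, ha, rfl⟩ := hc
    rw [hS] at ha
    unfold pairs at ha
    rw [mem_filter, mem_Ioc] at ha
    obtain ⟨⟨ha1, ha2⟩, ha3, ha4⟩ := ha
    have h2 := hap M hM1 hZA a ha3 a0 b0 hab hbn (by
      rw [pow_one]
      refine le_trans ?_ hlen
      exact div_le_div_of_nonneg_left hn0.le (by norm_num) hL)
    refine h2.trans ?_
    have h3 : (Ioc a0 b0).filter (fun p => p.Prime ∧ p ≡ a [MOD M]) ⊆ T.filter fun p => p % M = a % M := by
      intro p hp
      rw [mem_filter, mem_Ioc] at hp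
      obtain ⟨⟨hp1, hp2⟩, hp3, hp4⟩ := hp
      rw [mem_filter]
      refine ⟨?_, hp4⟩
      rw [hT]
      unfold ppairs
      rw [mem_filter, mem_Ioc]
      refine ⟨⟨hp1, hp2⟩, hp3, ?_⟩
      have h4 : p + (n - p) ≡ a + (n - a) [MOD M] := by
        rw [Nat.add_sub_cancel' (by omega), Nat.add_sub_cancel' (by omega)]
      have h5 : n - p ≡ n - a [MOD M] := Nat.ModEq.add_left_cancel hp4 h4
      rw [Nat.coprime_iff_gcd_eq_one, h5.gcd_eq]
      exact ha4
    exact_mod_cast card_le_card h3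
  have hTC' : (#C : ℝ) * (((b0 : ℝ) - a0) / (2 * Nat.totient M * L)) ≤ #T := by
    rw [hTC]
    push_cast
    have := Finset.sum_le_sum hcl
    rwa [Finset.sum_const, nsmul_eq_mul] at this
  have hrt : (Vz Z)⁻¹ = (M : ℝ) / Nat.totient M := by
    rw [← rt_fact]
    rfl
  -- the comparison
  have hfin : (Vz Z)⁻¹ * #S / (4 * L) ≤ #T := by
    refine le_trans ?_ hTC'
    calc (Vz Z)⁻¹ * #S / (4 * L) ≤ (Vz Z)⁻¹ * (2 * (((b0 : ℝ) - a0) / M) * #C) / (4 * L) := by
          apply div_le_div_of_nonneg_right _ (by positivity)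
          exact mul_le_mul_of_nonneg_left hSC' (inv_pos.2 (Vz_pos Z)).le
      _ = (#C : ℝ) * (((b0 : ℝ) - a0) / (2 * Nat.totient M * L)) := by
          rw [hrt]
          field_simp
          ring
  have hVp : 0 < (Vz Z)⁻¹ := inv_pos.2 (Vz_pos Z)
  calc (n : ℝ) / (4000 * L) = n / 1000 / (4 * L) := by
        rw [div_div]
        ring
    _ ≤ ((Vz Z)⁻¹ * (Vz Z)⁻¹ * #S) / (4 * L) := div_le_div_of_nonneg_right h1 (by positivity)
    _ = (Vz Z)⁻¹ * ((Vz Z)⁻¹ * #S / (4 * L)) := by ring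
    _ ≤ _ := mul_le_mul_of_nonneg_left hfin hVp.le

open Classical in
/-- the representations of `n` as a sum of a prime and a moved prime -/
noncomputable def mreps (z : ℕ → ℕ) (ξ : ℕ → Ω → ℕ) (n : ℕ) (ω : Ω) : Finset ℕ :=
  (range (n + 1)).filter fun p => p.Prime ∧ n - p ∈ moved z ξ ω

theorem mix [IsProbabilityMeasure μ] (A K : ℕ) (hK : 1 ≤ K) (e : ℕ → ℝ) (he : Antitone e) (he0 : ∀ n, 0 < e n) (he1 : ∀ n, e n ≤ 1) (y H : ℕ → ℕ) (ξ : ℕ → Ω → ℕ)
    (hyt : Tendsto y atTop atTop)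
    (hM : ∀ᶠ n : ℕ in atTop, (((y (Nat.log 2 n)).factorial : ℕ) : ℝ) ≤ Real.log n ^ A)
    (hH : ∀ᶠ n : ℕ in atTop, (n : ℝ) / (K * Real.log n ^ A) ≤ ((y (Nat.log 2 n)).factorial : ℝ) * H n ∧
      ((y (Nat.log 2 n)).factorial : ℝ) * H n ≤ (K : ℝ) * n / Real.log n ^ A)
    (hm : ∀ j, Measurable (ξ j)) (hi : iIndepFun ξ μ)
    (hu : ∀ j, 1 ≤ j → ∀ h < H j, e j / (H j : ℝ) ≤ μ.real {ω | ξ j ω = h}) :
    ∀ᶠ n : ℕ in atTop, Even n →
      μ.real {ω | (#(mreps (fun p => y (Nat.log 2 p)) ξ n ω) : ℝ) ≤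
        e n / (8000 * (1600 * 2 ^ A * (K : ℝ) ^ 2)) * (n / Real.log n ^ 2)} ≤
      Real.exp (-(e n / (32000 * (1600 * 2 ^ A * (K : ℝ) ^ 2)) * (n / Real.log n ^ 2))) := by
  classical
  have hlog : Tendsto (fun k : ℕ => Real.log (k : ℝ)) atTop atTop := Real.tendsto_log_atTop.comp tendsto_natCast_atTop_atTop
  obtain ⟨n2, hn2⟩ := eventually_atTop.1 hM
  obtain ⟨k0, hk0⟩ := eventually_atTop.1 (hyt.eventually_ge_atTop 1)
  have hloglog : ∀ᶠ L : ℝ in atTop, 2 + 2 * (A * Real.log L) ≤ L := by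
    filter_upwards [Pool.Agent.T9h55.KQ.small_ev A 1 one_pos, eventually_ge_atTop 1] with L h1 h2
    have h3 : 0 ≤ (A : ℝ) * Real.log L := mul_nonneg (Nat.cast_nonneg _) (Real.log_nonneg h2)
    nlinarith
  filter_upwards [hlog.eventually_ge_atTop 2, hlog.eventually hloglog,
    hit_sum (μ := μ) A K hK e he he0 (fun p => y (Nat.log 2 p)) H ξ hM hH hu, ppairs_card A,
    eventually_ge_atTop (1000 + 2 ^ (k0 + 4) + 100 * n2)] with n hL hLL hhit hpairs hn
  intro hev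
  have hk0p : 0 < 2 ^ (k0 + 4) := by positivity
  set z : ℕ → ℕ := fun p => y (Nat.log 2 p) with hz
  obtain ⟨ε, hεd⟩ : ∃ ε, ε = e n := ⟨_, rfl⟩
  have hε : 0 < ε := hεd ▸ he0 n
  have hε1 : ε ≤ 1 := hεd ▸ he1 n
  rw [← hεd] at hhit ⊢
  set L : ℝ := Real.log n with hLd
  have hL0 : 0 < L := by linarith
  have hn0 : (0 : ℝ) < n := by exact_mod_cast (by omega : 0 < n)
  have hK1 : (1 : ℝ) ≤ K := by exact_mod_cast hK
  set c0 : ℝ := ε / (1600 * 2 ^ A * (K : ℝ) ^ 2) with hc0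
  have h2A : (1 : ℝ) ≤ 2 ^ A := one_le_pow₀ (by norm_num)
  have hDpos : (0 : ℝ) < 1600 * 2 ^ A * (K : ℝ) ^ 2 := by positivity
  have hc0pos : 0 < c0 := by positivity
  have hc0le : 2 * c0 ≤ 1 := by
    rw [hc0, ← mul_div_assoc, div_le_one hDpos]
    have : (1 : ℝ) ≤ (K : ℝ) ^ 2 := one_le_pow₀ hK1
    nlinarith
  obtain ⟨a0, b0, j1, j2, r1, r2, r3, r4, r5, r6, r7⟩ := range_sel n (by omega)
  set Z2 := y j2 with hZ2
  have hj2 : Nat.log 2 (n - a0) = j2 := r7 (n - a0) (by omega) le_rfl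
  have hZ2pos : 1 ≤ Z2 := by
    apply hk0
    rw [← hj2]
    apply Nat.le_log_of_pow_le (by norm_num)
    have : 2 ^ (k0 + 4) = 16 * 2 ^ k0 := by rw [pow_add]; ring
    omega
  have hZA : (Z2.factorial : ℝ) ≤ L ^ A := by
    have h1 := hn2 (n - a0) (by omega)
    rw [hj2] at h1
    have h2 : (0 : ℝ) < ((n - a0 : ℕ) : ℝ) := by exact_mod_cast (by omega : 0 < n - a0)
    have h3 : Real.log ((n - a0 : ℕ) : ℝ) ≤ L := Real.log_le_log h2 (by exact_mod_cast Nat.sub_le _ _)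
    have h4 : 0 ≤ Real.log ((n - a0 : ℕ) : ℝ) := Real.log_nonneg (by exact_mod_cast (by omega : 1 ≤ n - a0))
    exact h1.trans (pow_le_pow_left₀ h4 h3 A)
  have hZL : (Z2 : ℝ) + 1 ≤ L := by
    have h6 := z_le_log (one_le_pow₀ (by linarith : (1 : ℝ) ≤ L)) hZA
    rw [Real.log_pow] at h6
    linarith
  set T : Finset ℕ := ppairs n Z2 a0 b0 with hT
  have hTcard := hpairs hev a0 b0 Z2 r1 r2 (by omega) (by
    have : (n : ℝ) + 200 * a0 ≤ 200 * b0 := by exact_mod_cast r4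
    linarith) hZ2pos hZL hZA
  have hTmem : ∀ t ∈ T, a0 < t ∧ t ≤ b0 ∧ t.Prime ∧ Nat.Coprime (n - t) Z2.factorial := by
    intro t ht
    rw [hT] at ht
    unfold ppairs at ht
    rw [mem_filter, mem_Ioc] at ht
    exact ⟨ht.1.1, ht.1.2, ht.2.1, ht.2.2⟩
  set Bh : Finset ℕ := (range (n - a0 + 1)).filter fun p => p.Prime ∧ 200 * (n - b0) ≤ 200 * p + n with hBh
  set ξ' : ℕ → Ω → ℕ := fun p ω => mv z ξ ω p with hξ'
  have hm' : ∀ j, Measurable (ξ' j) := fun j => (measurable_of_countable (fun h : ℕ => j + (z j).factorial * h)).comp (hm j)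
  have hi' : iIndepFun ξ' μ := hi.comp (fun j h => j + (z j).factorial * h) fun j => measurable_of_countable _
  have hV2 := Pool.Agent.H373R2.T7.Vz_pos Z2
  have hI2 : (Vz Z2)⁻¹ ≤ L := (inv_Vz_le Z2).trans hZL
  have hI2p : 0 < (Vz Z2)⁻¹ := inv_pos.2 hV2
  have hprob : 0 ≤ 2 * (c0 * (Vz Z2)⁻¹ / L) ∧ 2 * (c0 * (Vz Z2)⁻¹ / L) ≤ 1 := by
    constructor
    · positivity
    · have h3 : c0 * (Vz Z2)⁻¹ / L ≤ c0 := by
        rw [div_le_iff₀ hL0]
        exact mul_le_mul_of_nonneg_left hI2 hc0pos.le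
      linarith
  have hform : ∀ V : ℝ, ε * (V / (800 * 2 ^ A * (K : ℝ) ^ 2 * L)) = 2 * (c0 * V / L) := by
    intro V
    rw [hc0]
    have hK2 : (K : ℝ) ≠ 0 := by positivity
    have hA2 : (2 : ℝ) ^ A ≠ 0 := by positivity
    have hL3 : L ≠ 0 := hL0.ne'
    field_simp
    ring
  set qh : ℝ := c0 * (Vz Z2)⁻¹ / L with hqh
  have hh : ∀ t ∈ T, qh ≤ μ.real (miss ξ' Bh (fun _ => n - t))ᶜ := by
    intro t ht
    obtain ⟨t1, t2, t3, t4⟩ := hTmem t ht
    have h1 := hhit (n - t) Z2 (by omega) (by omega) (fun p h2 h3 => by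
      show y (Nat.log 2 p) = Z2
      rw [r7 p (by omega) (by omega)]) t4 Bh (fun p h2 h3 h4 => by
      rw [hBh, mem_filter, mem_range]
      exact ⟨by omega, h4, by omega⟩)
    rw [hform] at h1
    obtain ⟨h5, h6⟩ := hprob
    have h7 := hit_low hm' hi' Bh (fun _ => n - t) h5 h6 h1
    have h8 : 2 * qh / 2 = qh := by ring
    rwa [h8] at h7
  have hqh0 : 0 ≤ qh := by positivity
  have hQ : #T * qh ≤ ∑ t ∈ T, μ.real (miss ξ' Bh (fun _ => n - t))ᶜ := by
    have := Finset.sum_le_sum hh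
    rwa [Finset.sum_const, nsmul_eq_mul] at this
  have key := hit_chern hm' hi' Bh T (fun t _ => n - t) (fun t ht t' ht' hne _ _ h => by
      have h1 := hTmem t ht
      have h2 := hTmem t' ht'
      omega) (by positivity) hQ
  have hsize : c0 / 4000 * (n / L ^ 2) ≤ #T * qh := by
    have e1 : (#T : ℝ) * qh = c0 / L * ((Vz Z2)⁻¹ * #T) := by
      rw [hqh]
      ring
    rw [e1]
    calc c0 / 4000 * (n / L ^ 2) = c0 / L * (n / (4000 * L)) := by
          field_simp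
      _ ≤ _ := mul_le_mul_of_nonneg_left hTcard (by positivity)
  have hD2 : ε / (8000 * (1600 * 2 ^ A * (K : ℝ) ^ 2)) = c0 / 8000 := by
    rw [hc0]
    field_simp
  have hD3 : ε / (32000 * (1600 * 2 ^ A * (K : ℝ) ^ 2)) = c0 / 32000 := by
    rw [hc0]
    field_simp
  rw [hD2, hD3]
  have hsub : {ω | (#(mreps z ξ n ω) : ℝ) ≤ c0 / 8000 * (n / L ^ 2)} ⊆
      {ω | (#(hits ξ' Bh T (fun t _ => n - t) ω) : ℝ) ≤ #T * qh / 2} := by
    intro ω hω
    simp only [Set.mem_ofPred_eq] at hω ⊢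
    have h1 : hits ξ' Bh T (fun t _ => n - t) ω ⊆ mreps z ξ n ω := by
      intro t ht
      unfold hits at ht
      rw [mem_filter] at ht
      obtain ⟨h2, h4⟩ := ht
      obtain ⟨t1, t2, t3, t4⟩ := hTmem t h2
      unfold miss at h4
      simp only [Set.mem_ofPred_eq, not_forall, not_not, exists_prop] at h4
      obtain ⟨p', h7, h8⟩ := h4
      unfold mreps
      rw [mem_filter, mem_range]
      rw [hBh, mem_filter] at h7
      exact ⟨by omega, t3, ⟨p', h7.2.1, h8.symm⟩⟩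
    have h2 : (#(hits ξ' Bh T (fun t _ => n - t) ω) : ℝ) ≤ #(mreps z ξ n ω) := by
      exact_mod_cast card_le_card h1
    linarith
  calc μ.real {ω | (#(mreps z ξ n ω) : ℝ) ≤ c0 / 8000 * (n / L ^ 2)} ≤ _ := measureReal_mono hsub (measure_ne_top μ _)
    _ ≤ Real.exp (-(#T * qh / 8)) := key
    _ ≤ Real.exp (-(c0 / 32000 * (n / L ^ 2))) := by
        apply Real.exp_le_exp.2
        linarith

end Pool.Agent.T9h55.KT
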