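import Pool.Agent.T9h55.KT.Mix
import Pool.Agent.T9h55.KT.GoldLaw
import Pool.Agent.T9h55.RM.Model

/-! Sums of a prime and a moved prime: the law; existence of the variables (helper55). -/

set_option autoImplicit false

namespace Pool.Agent.T9h55.KT

open Finset Filter Topology MeasureTheory ProbabilityTheory

variable {Ω : Type*} [MeasurableSpace Ω] {μ : Measure Ω}

theorem mix_law [IsProbabilityMeasure μ] (A K B : ℕ) (hK : 1 ≤ K) (e : ℕ → ℝ) (he : Antitone e) (he0 : ∀ n, 0 < e n)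
    (he1 : ∀ n, e n ≤ 1) (heB : ∀ᶠ n : ℕ in atTop, 1 / Real.log n ^ B ≤ e n) (y H : ℕ → ℕ) (ξ : ℕ → Ω → ℕ) (hyt : Tendsto y atTop atTop)
    (hM : ∀ᶠ n : ℕ in atTop, (((y (Nat.log 2 n)).factorial : ℕ) : ℝ) ≤ Real.log n ^ A)
    (hH : ∀ᶠ n : ℕ in atTop, (n : ℝ) / (K * Real.log n ^ A) ≤ ((y (Nat.log 2 n)).factorial : ℝ) * H n ∧
      ((y (Nat.log 2 n)).factorial : ℝ) * H n ≤ (K : ℝ) * n / Real.log n ^ A)
    (hm : ∀ j, Measurable (ξ j)) (hi : iIndepFun ξ μ)
    (hu : ∀ j, 1 ≤ j → ∀ h < H j, e j / (H j : ℝ) ≤ μ.real {ω | ξ j ω = h}) :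
    ∀ᵐ ω ∂μ, ∀ᶠ n : ℕ in atTop, Even n →
      e n / (10 ^ 8 * 2 ^ A * (K : ℝ) ^ 2) * (n / Real.log n ^ 2) ≤ #(mreps (fun p => y (Nat.log 2 p)) ξ n ω) := by
  classical
  have hg := mix (μ := μ) A K hK e he he0 he1 y H ξ hyt hM hH hm hi hu
  have hK1 : (1 : ℝ) ≤ K := by exact_mod_cast hK
  set a : ℝ := 1 / (32000 * (1600 * 2 ^ A * (K : ℝ) ^ 2)) with ha
  have ha0 : 0 < a := by positivity
  have hlog : Tendsto (fun k : ℕ => Real.log (k : ℝ)) atTop atTop := Real.tendsto_log_atTop.comp tendsto_natCast_atTop_atTop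
  have hbc := Pool.Agent.T9h55.RM.bc (μ := μ) (B := 1)
    (A := fun n => {ω | Even n ∧ (#(mreps (fun p => y (Nat.log 2 p)) ξ n ω) : ℝ) ≤
        e n / (8000 * (1600 * 2 ^ A * (K : ℝ) ^ 2)) * (n / Real.log n ^ 2)}) (by
      filter_upwards [hg, exp_small' ha0 (B + 2), hlog.eventually_ge_atTop 1, heB] with n h1 h2 h3 h5
      by_cases hn : Even n
      · simp only [hn, true_and]
        refine (h1 hn).trans ?_
        rw [one_mul]
        refine le_trans (Real.exp_le_exp.2 ?_) h2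
        have hL0 : 0 < Real.log (n : ℝ) := by linarith
        have h7 : a * ((n : ℝ) / Real.log n ^ (B + 2)) = a * ((1 / Real.log n ^ B) * (n / Real.log n ^ 2)) := by
          rw [pow_add]
          field_simp
        have h8 : e n / (32000 * (1600 * 2 ^ A * (K : ℝ) ^ 2)) * (n / Real.log n ^ 2) =
            a * (e n * (n / Real.log n ^ 2)) := by
          rw [ha]
          ring
        have h9 : (1 / Real.log n ^ B) * ((n : ℝ) / Real.log n ^ 2) ≤ e n * (n / Real.log n ^ 2) :=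
          mul_le_mul_of_nonneg_right h5 (by positivity)
        have h10 := mul_le_mul_of_nonneg_left h9 ha0.le
        rw [h7, h8]
        linarith
      · simp only [hn, false_and, Set.ofPred_false, measureReal_empty]
        positivity)
  filter_upwards [hbc] with ω hω
  filter_upwards [hω, eventually_ge_atTop 1] with n h1 hn hev
  simp only [Set.mem_ofPred_eq, not_and, not_le] at h1
  have h2 := h1 hev
  refine le_trans ?_ h2.le
  apply mul_le_mul_of_nonneg_right _ (by positivity)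
  apply div_le_div_of_nonneg_left (he0 n).le (by positivity)
  have h3 : (0 : ℝ) ≤ 2 ^ A * K ^ 2 := by positivity
  nlinarith

/-- independent variables which vanish with probability `1 - ε` and are otherwise uniform on `0, …, H j - 1` exist -/
theorem exists_eps (H : ℕ → ℕ) (hH : ∀ j, 1 ≤ j → 1 ≤ H j) (e : ℕ → ℝ) (h0 : ∀ n, 0 ≤ e n) (h1 : ∀ n, e n ≤ 1) :
    ∃ (Ω : Type) (_ : MeasurableSpace Ω) (μ : Measure Ω) (ξ : ℕ → Ω → ℕ),
    IsProbabilityMeasure μ ∧ (∀ j, Measurable (ξ j)) ∧ iIndepFun ξ μ ∧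
      ∀ j, 1 ≤ j → ∀ h < H j, μ.real {ω | ξ j ω = h} = (if h = 0 then 1 - e j else 0) + e j / (H j : ℝ) := by
  classical
  have hne : ∀ j, (range (max 1 (H j))).Nonempty := fun j => ⟨0, mem_range.2 (by omega)⟩
  set P : ∀ j, PMF ℕ := fun j => PMF.uniformOfFinset (range (max 1 (H j))) (hne j) with hP
  set ν : ℕ → Measure ℕ := fun j => ENNReal.ofReal (1 - e j) • Measure.dirac 0 + ENNReal.ofReal (e j) • (P j).toMeasure with hν
  have hprob : ∀ j, IsProbabilityMeasure (ν j) := by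
    intro j
    constructor
    rw [hν]
    simp only [Measure.coe_add, Measure.coe_smul, Pi.add_apply, Pi.smul_apply, measure_univ, smul_eq_mul, mul_one]
    rw [← ENNReal.ofReal_add (by linarith [h1 j]) (h0 j)]
    simp
  obtain ⟨Ω, mΩ, μ, ξ, h2, h3, h4, h5⟩ := exists_hasLaw_indepFun (fun _ : ℕ => ℕ) ν
  refine ⟨Ω, mΩ, μ, ξ, h5, h2, h4, fun j hj h hh => ?_⟩
  have e1 : μ {ω | ξ j ω = h} = ν j {h} := by
    rw [← (h3 j).map_eq, Measure.map_apply (h2 j) (measurableSet_singleton h)]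
    rfl
  have hm : max 1 (H j) = H j := max_eq_right (hH j hj)
  unfold Measure.real
  rw [e1, hν]
  simp only [Measure.coe_add, Measure.coe_smul, Pi.add_apply, Pi.smul_apply, smul_eq_mul]
  rw [PMF.toMeasure_apply_singleton _ _ (measurableSet_singleton h), hP]
  simp only
  rw [PMF.uniformOfFinset_apply_of_mem _ (by rw [mem_range, hm]; exact hh), card_range, hm,
    Measure.dirac_apply' _ (measurableSet_singleton h)]
  have hHpos : 0 < H j := by omega
  have hHr : (0 : ℝ) < H j := by exact_mod_cast hHpos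
  have hfin : ENNReal.ofReal (e j) * ((H j : ENNReal))⁻¹ ≠ ⊤ := by
    apply ENNReal.mul_ne_top ENNReal.ofReal_ne_top
    rw [ENNReal.inv_ne_top]
    exact_mod_cast hHpos.ne'
  by_cases hc : h = 0
  · subst hc
    rw [if_pos rfl]
    simp only [Set.indicator_of_mem, Set.mem_singleton_iff, Pi.one_apply, mul_one]
    rw [ENNReal.toReal_add ENNReal.ofReal_ne_top hfin, ENNReal.toReal_mul, ENNReal.toReal_ofReal (by linarith [h1 j]),
      ENNReal.toReal_ofReal (h0 j), ENNReal.toReal_inv, ENNReal.toReal_natCast]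
    rfl
  · rw [if_neg hc]
    rw [Set.indicator_of_notMem (by simpa using Ne.symm hc), mul_zero, zero_add, zero_add, ENNReal.toReal_mul,
      ENNReal.toReal_ofReal (h0 j), ENNReal.toReal_inv, ENNReal.toReal_natCast]
    rfl

end Pool.Agent.T9h55.KT
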