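import Pool.Agent.T9h55.KT.Hit

/-! Independent balls: the number of the targets which are hit, exponential bounds; two stages (helper55). -/

set_option autoImplicit false

namespace Pool.Agent.T9h55.KT

open Finset MeasureTheory ProbabilityTheory

variable {Ω : Type*} [MeasurableSpace Ω] {μ : Measure Ω}

lemma one_sub_sum_le (s : Finset ℕ) (a : ℕ → ℝ) (h0 : ∀ i ∈ s, 0 ≤ a i) (h1 : ∀ i ∈ s, a i ≤ 1) :
    1 - ∑ i ∈ s, a i ≤ ∏ i ∈ s, (1 - a i) := by
  classical
  induction s using Finset.induction_on with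
  | empty => simp
  | insert i s hi ih =>
    rw [sum_insert hi, prod_insert hi]
    have h2 := ih (fun j hj => h0 j (mem_insert_of_mem hj)) (fun j hj => h1 j (mem_insert_of_mem hj))
    have h3 := h0 i (mem_insert_self _ _)
    have h4 := h1 i (mem_insert_self _ _)
    have h5 : 0 ≤ ∑ j ∈ s, a j := sum_nonneg fun j hj => h0 j (mem_insert_of_mem hj)
    have h6 : (1 - a i) * (1 - ∑ j ∈ s, a j) ≤ (1 - a i) * ∏ j ∈ s, (1 - a j) := mul_le_mul_of_nonneg_left h2 (by linarith)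
    nlinarith [mul_nonneg h3 h5]

lemma all_miss [IsProbabilityMeasure μ] {ξ : ℕ → Ω → ℕ} (hm : ∀ j, Measurable (ξ j)) (hi : iIndepFun ξ μ) (B T : Finset ℕ)
    (v : ℕ → ℕ → ℕ) (hne : ∀ t ∈ T, ∀ t' ∈ T, t ≠ t' → ∀ j ∈ B, v t j ≠ v t' j) :
    μ.real (⋂ t ∈ T, miss ξ B (v t)) ≤ ∏ t ∈ T, μ.real (miss ξ B (v t)) := by
  classical
  have h := all_real hi B (fun j => ({h | ∀ t ∈ T, h ≠ v t j} : Set ℕ))
  have e : (⋂ t ∈ T, miss ξ B (v t)) = {ω | ∀ j ∈ B, ξ j ω ∈ ({h | ∀ t ∈ T, h ≠ v t j} : Set ℕ)} := by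
    ext ω
    simp only [Set.mem_iInter, miss, Set.mem_ofPred_eq]
    constructor
    · intro h1 j hj t ht
      exact h1 t ht j hj
    · intro h1 t ht j hj
      exact h1 j hj t ht
  rw [e, h]
  have h2 : ∀ j ∈ B, μ.real {ω | ξ j ω ∈ ({h | ∀ t ∈ T, h ≠ v t j} : Set ℕ)} ≤ ∏ t ∈ T, (1 - pr μ ξ j (v t j)) := by
    intro j hj
    refine le_trans (le_of_eq ?_) (one_sub_sum_le T (fun t => pr μ ξ j (v t j)) (fun _ _ => measureReal_nonneg)
      (fun _ _ => measureReal_le_one))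
    have e1 : {ω | ξ j ω ∈ ({h | ∀ t ∈ T, h ≠ v t j} : Set ℕ)} = (⋃ t ∈ T, {ω | ξ j ω = v t j})ᶜ := by
      ext ω
      simp
    rw [e1, probReal_compl_eq_one_sub (Finset.measurableSet_biUnion T fun t _ => eq_meas hm j _),
      measureReal_biUnion_finset]
    · rfl
    · intro t ht t' ht' htt
      rw [Function.onFun, Set.disjoint_left]
      intro ω h3 h4
      exact hne t ht t' ht' htt j hj (h3.symm.trans h4)
    · intro t _
      exact eq_meas hm j _
  calc ∏ j ∈ B, μ.real {ω | ξ j ω ∈ ({h | ∀ t ∈ T, h ≠ v t j} : Set ℕ)} ≤ ∏ j ∈ B, ∏ t ∈ T, (1 - pr μ ξ j (v t j)) :=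
        Finset.prod_le_prod (fun _ _ => measureReal_nonneg) h2
    _ = ∏ t ∈ T, ∏ j ∈ B, (1 - pr μ ξ j (v t j)) := Finset.prod_comm
    _ = ∏ t ∈ T, μ.real (miss ξ B (v t)) := Finset.prod_congr rfl fun t _ => (miss_real hm hi B (v t)).symm

open Classical in
/-- the targets which are hit -/
noncomputable def hits (ξ : ℕ → Ω → ℕ) (B T : Finset ℕ) (v : ℕ → ℕ → ℕ) (ω : Ω) : Finset ℕ :=
  T.filter fun t => ω ∉ miss ξ B (v t)

/-- exponential bound for the number of the targets which are hit -/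
theorem hit_chern [IsProbabilityMeasure μ] {ξ : ℕ → Ω → ℕ} (hm : ∀ j, Measurable (ξ j)) (hi : iIndepFun ξ μ) (B T : Finset ℕ)
    (v : ℕ → ℕ → ℕ) (hne : ∀ t ∈ T, ∀ t' ∈ T, t ≠ t' → ∀ j ∈ B, v t j ≠ v t' j) {Q : ℝ} (hQ0 : 0 ≤ Q)
    (hQ : Q ≤ ∑ t ∈ T, μ.real (miss ξ B (v t))ᶜ) :
    μ.real {ω | (#(hits ξ B T v ω) : ℝ) ≤ Q / 2} ≤ Real.exp (-(Q / 8)) := by
  classical
  set x : ℝ := Real.exp (-(1 / 2)) with hx
  have hx0 : 0 < x := Real.exp_pos _
  have hx1 : x ≤ 5 / 8 := by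
    have h1 : (8 / 5 : ℝ) ≤ Real.exp (1 / 2) := by
      have h2 := Real.quadratic_le_exp_of_nonneg (x := 1 / 2) (by norm_num)
      norm_num at h2 ⊢
      linarith
    rw [hx, Real.exp_neg, inv_le_comm₀ (Real.exp_pos _) (by norm_num)]
    norm_num at h1 ⊢
    linarith
  set I : ℕ → Ω → ℝ := fun t => (miss ξ B (v t)).indicator (fun _ => (1 : ℝ)) with hI
  set f : Ω → ℝ := fun ω => ∏ t ∈ T, ((1 - x) * I t ω + x) with hf
  have hmm : ∀ t, MeasurableSet (miss ξ B (v t)) := fun t => miss_meas hm B (v t)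
  have hfac : ∀ t ω, (1 - x) * I t ω + x = if ω ∈ miss ξ B (v t) then 1 else x := by
    intro t ω
    simp only [hI, Set.indicator_apply]
    split_ifs <;> ring
  have hfeq : ∀ ω, f ω = x ^ #(hits ξ B T v ω) := by
    intro ω
    simp only [hf, hfac]
    unfold hits
    rw [Finset.prod_ite, Finset.prod_const_one, one_mul, Finset.prod_const]
  have hfexp : ∀ ω, f ω = ∑ T' ∈ T.powerset, ((1 - x) ^ #T' * x ^ #(T \ T')) *
      (⋂ t ∈ T', miss ξ B (v t)).indicator (fun _ => (1 : ℝ)) ω := by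
    intro ω
    simp only [hf]
    rw [Finset.prod_add]
    refine Finset.sum_congr rfl fun T' _ => ?_
    rw [Finset.prod_mul_distrib, Finset.prod_const, Finset.prod_const]
    have e : ∏ t ∈ T', I t ω = (⋂ t ∈ T', miss ξ B (v t)).indicator (fun _ => (1 : ℝ)) ω := by
      rw [Set.indicator_apply]
      split_ifs with h
      · rw [Set.mem_iInter₂] at h
        apply Finset.prod_eq_one
        intro t ht
        simp only [hI]
        rw [Set.indicator_of_mem (h t ht)]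
      · rw [Set.mem_iInter₂] at h
        push Not at h
        obtain ⟨t, ht, h2⟩ := h
        apply Finset.prod_eq_zero ht
        simp only [hI]
        rw [Set.indicator_of_notMem h2]
    rw [e]
    ring
  have hTm : ∀ T' : Finset ℕ, MeasurableSet (⋂ t ∈ T', miss ξ B (v t)) := fun T' =>
    Finset.measurableSet_biInter _ fun t _ => hmm t
  have hint : ∀ T' : Finset ℕ, Integrable (fun ω => ((1 - x) ^ #T' * x ^ #(T \ T')) *
      (⋂ t ∈ T', miss ξ B (v t)).indicator (fun _ => (1 : ℝ)) ω) μ := fun T' =>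
    ((integrable_const 1).indicator (hTm T')).const_mul _
  have hfint : Integrable f μ := by
    have : f = fun ω => ∑ T' ∈ T.powerset, ((1 - x) ^ #T' * x ^ #(T \ T')) *
      (⋂ t ∈ T', miss ξ B (v t)).indicator (fun _ => (1 : ℝ)) ω := funext hfexp
    rw [this]
    exact integrable_finset_sum _ fun T' _ => hint T'
  have hE : ∫ ω, f ω ∂μ ≤ Real.exp (-(3 / 8 * Q)) := by
    have h1 : ∫ ω, f ω ∂μ = ∑ T' ∈ T.powerset, ((1 - x) ^ #T' * x ^ #(T \ T')) * μ.real (⋂ t ∈ T', miss ξ B (v t)) := by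
      simp only [hfexp]
      rw [integral_finset_sum _ fun T' _ => hint T']
      refine Finset.sum_congr rfl fun T' _ => ?_
      rw [integral_const_mul, integral_indicator_const _ (hTm T')]
      simp
    have h2 : ∑ T' ∈ T.powerset, ((1 - x) ^ #T' * x ^ #(T \ T')) * μ.real (⋂ t ∈ T', miss ξ B (v t)) ≤
        ∏ t ∈ T, ((1 - x) * μ.real (miss ξ B (v t)) + x) := by
      rw [Finset.prod_add]
      refine Finset.sum_le_sum fun T' hT' => ?_
      rw [mem_powerset] at hT'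
      rw [Finset.prod_mul_distrib, Finset.prod_const, Finset.prod_const]
      have h3 := all_miss hm hi B T' v (fun t ht t' ht' => hne t (hT' ht) t' (hT' ht'))
      have h4 : 0 ≤ (1 - x) ^ #T' * x ^ #(T \ T') := by
        apply mul_nonneg (pow_nonneg (by linarith) _) (by positivity)
      calc (1 - x) ^ #T' * x ^ #(T \ T') * μ.real (⋂ t ∈ T', miss ξ B (v t))
          ≤ (1 - x) ^ #T' * x ^ #(T \ T') * ∏ t ∈ T', μ.real (miss ξ B (v t)) := mul_le_mul_of_nonneg_left h3 h4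
        _ = _ := by ring
    rw [h1]
    refine h2.trans ?_
    calc ∏ t ∈ T, ((1 - x) * μ.real (miss ξ B (v t)) + x) ≤ ∏ t ∈ T, Real.exp (-((1 - x) * μ.real (miss ξ B (v t))ᶜ)) := by
          refine Finset.prod_le_prod (fun t _ => ?_) fun t _ => ?_
          · have : 0 ≤ μ.real (miss ξ B (v t)) := measureReal_nonneg
            have h5 : 0 ≤ 1 - x := by linarith
            positivity
          · rw [probReal_compl_eq_one_sub (hmm t)]
            have := Real.add_one_le_exp (-((1 - x) * (1 - μ.real (miss ξ B (v t)))))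
            linarith
      _ = Real.exp (-((1 - x) * ∑ t ∈ T, μ.real (miss ξ B (v t))ᶜ)) := by
          rw [← Real.exp_sum, Finset.mul_sum, Finset.sum_neg_distrib]
      _ ≤ Real.exp (-(3 / 8 * Q)) := by
          apply Real.exp_le_exp.2
          have h5 : 3 / 8 * Q ≤ (1 - x) * ∑ t ∈ T, μ.real (miss ξ B (v t))ᶜ :=
            mul_le_mul (by linarith) hQ hQ0 (by linarith)
          linarith
  have hM := mul_meas_ge_le_integral_of_nonneg (μ := μ) (f := f)
    (Filter.Eventually.of_forall fun ω => by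
      rw [hfeq]
      positivity) hfint (Real.exp (-(Q / 4)))
  have hsub : {ω | (#(hits ξ B T v ω) : ℝ) ≤ Q / 2} ⊆ {ω | Real.exp (-(Q / 4)) ≤ f ω} := by
    intro ω hω
    simp only [Set.mem_ofPred_eq] at hω ⊢
    rw [hfeq, hx, ← Real.exp_nat_mul]
    apply Real.exp_le_exp.2
    linarith
  have h3 : μ.real {ω | (#(hits ξ B T v ω) : ℝ) ≤ Q / 2} ≤ μ.real {ω | Real.exp (-(Q / 4)) ≤ f ω} :=
    measureReal_mono hsub (measure_ne_top μ _)
  have h4 : Real.exp (-(Q / 4)) * μ.real {ω | (#(hits ξ B T v ω) : ℝ) ≤ Q / 2} ≤ Real.exp (-(3 / 8 * Q)) :=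
    (mul_le_mul_of_nonneg_left h3 (Real.exp_pos _).le).trans (hM.trans hE)
  have h5 : Real.exp (-(3 / 8 * Q)) = Real.exp (-(Q / 4)) * Real.exp (-(Q / 8)) := by
    rw [← Real.exp_add]
    congr 1
    ring
  rw [h5] at h4
  exact le_of_mul_le_mul_left h4 (Real.exp_pos _)

end Pool.Agent.T9h55.KT
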