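import Pool.Agent.T9h55.KT.Neg

/-! Independent balls: the targets which are hit by the balls of two disjoint groups (helper55). -/

set_option autoImplicit false

namespace Pool.Agent.T9h55.KT

open Finset MeasureTheory ProbabilityTheory

variable {Ω : Type*} [MeasurableSpace Ω] {μ : Measure Ω}

lemma hits_meas {ξ : ℕ → Ω → ℕ} (B T : Finset ℕ) (v : ℕ → ℕ → ℕ) (P : Finset ℕ → Prop) :
    ∃ D : Set (B → ℕ), {ω | P (hits ξ B T v ω)} = (fun ω (j : B) => ξ j ω) ⁻¹' D := by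
  classical
  refine ⟨{g | P (T.filter fun t => ∃ j : B, g j = v t j)}, ?_⟩
  ext ω
  simp only [Set.mem_ofPred_eq, Set.mem_preimage]
  have e : hits ξ B T v ω = T.filter fun t => ∃ j : B, ξ j ω = v t j := by
    unfold hits
    apply filter_congr
    intro t _
    unfold miss
    simp only [Set.mem_ofPred_eq, not_forall, not_not, exists_prop, Subtype.exists]
  rw [e]

lemma hits_meas' {ξ : ℕ → Ω → ℕ} (hm : ∀ j, Measurable (ξ j)) (B T : Finset ℕ) (v : ℕ → ℕ → ℕ) (P : Finset ℕ → Prop) :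
    MeasurableSet {ω | P (hits ξ B T v ω)} := by
  obtain ⟨D, hD⟩ := hits_meas (ξ := ξ) B T v P
  rw [hD]
  exact (measurable_pi_lambda (fun ω (j : B) => ξ j ω) fun j => hm j) MeasurableSet.of_discrete

/-- two stages -/
theorem two_stage [IsProbabilityMeasure μ] {ξ : ℕ → Ω → ℕ} (hm : ∀ j, Measurable (ξ j)) (hi : iIndepFun ξ μ)
    (Bl Bh : Finset ℕ) (hdis : Disjoint Bl Bh) (T : Finset ℕ) (v v' : ℕ → ℕ → ℕ)
    (hne : ∀ t ∈ T, ∀ t' ∈ T, t ≠ t' → ∀ j ∈ Bl, v t j ≠ v t' j)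
    (hne' : ∀ t ∈ T, ∀ t' ∈ T, t ≠ t' → ∀ j ∈ Bh, v' t j ≠ v' t' j) {ql qh : ℝ} (hql : 0 ≤ ql) (hqh : 0 ≤ qh)
    (hl : ∀ t ∈ T, ql ≤ μ.real (miss ξ Bl (v t))ᶜ) (hh : ∀ t ∈ T, qh ≤ μ.real (miss ξ Bh (v' t))ᶜ) :
    μ.real {ω | (#(hits ξ Bh (hits ξ Bl T v ω) v' ω) : ℝ) ≤ #T * ql * qh / 4} ≤
      Real.exp (-(#T * ql / 8)) + Real.exp (-(#T * ql * qh / 16)) := by
  classical
  set R : Finset (Finset ℕ) := T.powerset.filter fun T' => (#T : ℝ) * ql / 2 < #T' with hR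
  set F : Finset ℕ → Set Ω := fun T' => {ω | hits ξ Bl T v ω = T'} ∩ {ω | (#(hits ξ Bh T' v' ω) : ℝ) ≤ #T' * qh / 2} with hF
  have hsub : {ω | (#(hits ξ Bh (hits ξ Bl T v ω) v' ω) : ℝ) ≤ #T * ql * qh / 4} ⊆
      {ω | (#(hits ξ Bl T v ω) : ℝ) ≤ #T * ql / 2} ∪ ⋃ T' ∈ R, F T' := by
    intro ω hω
    simp only [Set.mem_ofPred_eq] at hω
    by_cases h : (#(hits ξ Bl T v ω) : ℝ) ≤ #T * ql / 2
    · exact Or.inl h
    · right
      push Not at h
      simp only [Set.mem_iUnion]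
      refine ⟨hits ξ Bl T v ω, ?_, ?_⟩
      · rw [hR, mem_filter, mem_powerset]
        refine ⟨?_, h⟩
        unfold hits
        exact filter_subset _ _
      · simp only [hF, Set.mem_inter_iff, Set.mem_ofPred_eq, true_and]
        refine hω.trans ?_
        have := mul_le_mul_of_nonneg_right h.le hqh
        linarith
  have h1 : μ.real {ω | (#(hits ξ Bl T v ω) : ℝ) ≤ #T * ql / 2} ≤ Real.exp (-(#T * ql / 8)) := by
    have hQ : #T * ql ≤ ∑ t ∈ T, μ.real (miss ξ Bl (v t))ᶜ := by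
      have := Finset.sum_le_sum hl
      rwa [Finset.sum_const, nsmul_eq_mul] at this
    exact hit_chern hm hi Bl T v hne (by positivity) hQ
  have h2 : ∀ T' ∈ R, μ.real (F T') ≤ μ.real {ω | hits ξ Bl T v ω = T'} * Real.exp (-(#T * ql * qh / 16)) := by
    intro T' hT'
    rw [hR, mem_filter, mem_powerset] at hT'
    obtain ⟨hT1, hT2⟩ := hT'
    obtain ⟨D1, hD1⟩ := hits_meas (ξ := ξ) Bl T v (fun S => S = T')
    obtain ⟨D2, hD2⟩ := hits_meas (ξ := ξ) Bh T' v' (fun S => (#S : ℝ) ≤ #T' * qh / 2)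
    have hind := hi.indepFun_finset Bl Bh hdis hm
    have h3 := hind.measure_inter_preimage_eq_mul D1 D2 MeasurableSet.of_discrete MeasurableSet.of_discrete
    have h4 : μ.real (F T') = μ.real {ω | hits ξ Bl T v ω = T'} * μ.real {ω | (#(hits ξ Bh T' v' ω) : ℝ) ≤ #T' * qh / 2} := by
      simp only [hF]
      rw [hD1, hD2]
      unfold Measure.real
      rw [h3, ENNReal.toReal_mul]
    rw [h4]
    apply mul_le_mul_of_nonneg_left _ measureReal_nonneg
    have hQ : #T' * qh ≤ ∑ t ∈ T', μ.real (miss ξ Bh (v' t))ᶜ := by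
      have := Finset.sum_le_sum (fun t ht => hh t (hT1 ht))
      rwa [Finset.sum_const, nsmul_eq_mul] at this
    have h5 := hit_chern hm hi Bh T' v' (fun t ht t' ht' => hne' t (hT1 ht) t' (hT1 ht')) (by positivity) hQ
    refine h5.trans (Real.exp_le_exp.2 ?_)
    have := mul_le_mul_of_nonneg_right hT2.le hqh
    linarith
  have h3 : μ.real (⋃ T' ∈ R, F T') ≤ Real.exp (-(#T * ql * qh / 16)) := by
    refine (measureReal_biUnion_finset_le R F).trans ((Finset.sum_le_sum h2).trans ?_)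
    rw [← Finset.sum_mul]
    have h4 : ∑ T' ∈ R, μ.real {ω | hits ξ Bl T v ω = T'} ≤ 1 := by
      rw [← measureReal_biUnion_finset]
      · exact measureReal_le_one
      · intro S _ S' _ hSS
        rw [Function.onFun, Set.disjoint_left]
        intro ω h5 h6
        simp only [Set.mem_ofPred_eq] at h5 h6
        exact hSS (h5.symm.trans h6)
      · intro S _
        exact hits_meas' hm Bl T v (fun S' => S' = S)
    have h5 := (Real.exp_pos (-(#T * ql * qh / 16))).le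
    calc (∑ T' ∈ R, μ.real {ω | hits ξ Bl T v ω = T'}) * Real.exp (-(#T * ql * qh / 16)) ≤
        1 * Real.exp (-(#T * ql * qh / 16)) := mul_le_mul_of_nonneg_right h4 h5
      _ = _ := one_mul _
  calc μ.real {ω | (#(hits ξ Bh (hits ξ Bl T v ω) v' ω) : ℝ) ≤ #T * ql * qh / 4} ≤
      μ.real ({ω | (#(hits ξ Bl T v ω) : ℝ) ≤ #T * ql / 2} ∪ ⋃ T' ∈ R, F T') := measureReal_mono hsub (measure_ne_top μ _)
    _ ≤ μ.real {ω | (#(hits ξ Bl T v ω) : ℝ) ≤ #T * ql / 2} + μ.real (⋃ T' ∈ R, F T') := measureReal_union_le _ _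
    _ ≤ _ := add_le_add h1 h3

end Pool.Agent.T9h55.KT
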